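import Pool.Agent.Q64.SF.Basic

/-! # A priori estimates: the truncation is not active -/

open Set Filter Topology MeasureTheory intervalIntegral

namespace Pool.Agent.Q64.SF

/-- positive solutions of the integrated equation on `[0, Z]` -/
structure Good (a : ℝ) (h : ℝ → ℝ) (Z : ℝ) : Prop where
  hc : Continuous h
  sq : ∀ z, 0 ≤ z → z ≤ Z → h z ^ 2 = A a h z
  pos : ∀ z, 0 < z → z ≤ Z → 0 < h z

variable {a : ℝ} {h : ℝ → ℝ} {Z : ℝ}

lemma Good.deriv (g : Good a h Z) {z : ℝ} (h0 : 0 < z) (h1 : z < Z) :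
    HasDerivAt h (P a h z / h z) z := by
  have hp := g.pos z h0 h1.le
  have hA : A a h z ≠ 0 := by
    rw [← g.sq z h0.le h1.le]
    positivity
  have h2 := (hasDerivAt_A (a := a) g.hc z).sqrt hA
  have h3 : √(A a h z) = h z := by rw [← g.sq z h0.le h1.le, Real.sqrt_sq hp.le]
  rw [h3, mul_div_mul_left _ _ (by norm_num : (2 : ℝ) ≠ 0)] at h2
  refine h2.congr_of_eventuallyEq ?_
  filter_upwards [Ioo_mem_nhds h0 h1] with t ht
  rw [← g.sq t ht.1.le ht.2.le, Real.sqrt_sq (g.pos t ht.1 ht.2.le).le]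

lemma Good.deriv_E (g : Good a h Z) {z : ℝ} (h0 : 0 < z) (h1 : z < Z) :
    HasDerivAt (E a h) (-(h z ^ 3 / 18)) z := by
  have hp := g.pos z h0 h1.le
  have hd := g.deriv h0 h1
  have hP := hasDerivAt_P (a := a) g.hc z
  have hK := hasDerivAt_K (a := a) g.hc z
  have h2 := (((hP.pow 2).div_const 2).add (((hasDerivAt_id z).div_const 9).mul (hd.pow 3))).sub
    ((hK.mul (hd.pow 2)).div_const 2)
  refine (h2.congr_deriv ?_)
  simp only [id, Pi.pow_apply]
  field_simp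
  push_cast
  ring

lemma A_bound (hc : Continuous h) {z : ℝ} (hz : 0 ≤ z) :
    |A a h z - a ^ 2 * z ^ 2| ≤ 2 / 3 * z ^ 2 * ∫ t in (0 : ℝ)..z, |h t| := by
  have h1 := A_sub (a := a) hc (continuous_const (y := (0 : ℝ))) hz
  have h2 : A a (fun _ => (0 : ℝ)) z = a ^ 2 * z ^ 2 := by
    unfold A H M1 M2; simp
  rw [h2] at h1
  simpa using h1

lemma B_le {z : ℝ} (hz : 0 ≤ z) : B z ≤ z ^ 2 / 1024 := by
  unfold B
  have h1 : z / (32 * (1 + z) ^ 2) ≤ z / 32 := by
    apply div_le_div_of_nonneg_left hz (by norm_num)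
    nlinarith
  calc (z / (32 * (1 + z) ^ 2)) ^ 2 ≤ (z / 32) ^ 2 := pow_le_pow_left₀ (by positivity) h1 2
    _ = z ^ 2 / 1024 := by ring

lemma B_pos {z : ℝ} (hz : 0 < z) : 0 < B z := by unfold B; positivity

/-- the behaviour near the origin -/
lemma near (hc : Continuous h) (hs : ∀ z, 0 ≤ z → h z = √(max (A 1 h z) (B z))) {z : ℝ}
    (h0 : 0 ≤ z) (h1 : z ≤ 1) : z ^ 2 / 2 ≤ A 1 h z ∧ z / 2 ≤ h z ∧ h z ≤ 3 / 2 * z := by
  have hnn : ∀ z, 0 ≤ z → 0 ≤ h z := fun z hz => by rw [hs z hz]; exact Real.sqrt_nonneg _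
  have hsq : ∀ z, 0 ≤ z → h z ^ 2 = max (A 1 h z) (B z) := fun z hz => by
    rw [hs z hz, Real.sq_sqrt]
    exact le_max_of_le_right (by unfold B; positivity)
  have hint : ∀ x, 0 ≤ x → ∀ c : ℝ, (∀ t, 0 ≤ t → t ≤ x → h t ≤ c) →
      (∫ t in (0 : ℝ)..x, |h t|) ≤ c * x := by
    intro x hx c hcx
    have h2 : (∫ t in (0 : ℝ)..x, |h t|) ≤ ∫ _ in (0 : ℝ)..x, c :=
      integral_mono_on hx (hc.abs.intervalIntegrable _ _) (by simp) fun t ht => by
        rw [abs_of_nonneg (hnn t ht.1)]; exact hcx t ht.1 ht.2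
    simpa [mul_comm] using h2
  have hup : ∀ x, 0 ≤ x → ∀ c : ℝ, (∀ t, 0 ≤ t → t ≤ x → h t ≤ c) →
      h x ^ 2 ≤ x ^ 2 + 2 / 3 * x ^ 2 * (c * x) := by
    intro x hx c hcx
    have h2 := A_bound (a := 1) hc hx
    have h3 := hint x hx c hcx
    have h4 : 0 ≤ c := (hnn 0 le_rfl).trans (hcx 0 le_rfl hx)
    rw [hsq x hx, max_le_iff]
    have h5 : 2 / 3 * x ^ 2 * (∫ t in (0 : ℝ)..x, |h t|) ≤ 2 / 3 * x ^ 2 * (c * x) :=
      mul_le_mul_of_nonneg_left h3 (by positivity)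
    constructor
    · have := (abs_le.1 h2).2
      linarith
    · have := B_le hx
      have : 0 ≤ 2 / 3 * x ^ 2 * (c * x) := by positivity
      nlinarith [sq_nonneg x]
  obtain ⟨x₀, hx₀, hmax⟩ := isCompact_Icc.exists_isMaxOn (nonempty_Icc.2 zero_le_one)
    hc.continuousOn
  have hm : h x₀ ≤ 3 / 2 := by
    by_contra hcon
    push Not at hcon
    have h2 := hup x₀ hx₀.1 (h x₀) (fun t ht0 ht1 => hmax ⟨ht0, ht1.trans hx₀.2⟩)
    have h3 : x₀ ^ 2 ≤ 1 := by
      have := hx₀.1; have := hx₀.2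
      nlinarith
    have h4 : x₀ ^ 2 * (h x₀ * x₀) ≤ 1 * (h x₀ * 1) := by
      have := hx₀.1
      exact mul_le_mul h3 (mul_le_mul_of_nonneg_left hx₀.2 (by linarith)) (by positivity) (by norm_num)
    nlinarith
  have hle : ∀ x, 0 ≤ x → x ≤ 1 → h x ≤ 3 / 2 * x := by
    intro x hx hx1
    have h2 := hup x hx (3 / 2) (fun t ht0 ht1 => (hmax ⟨ht0, ht1.trans hx1⟩).trans hm)
    have h3 : h x ^ 2 ≤ (3 / 2 * x) ^ 2 := by nlinarith [sq_nonneg x, mul_nonneg (sq_nonneg x) hx]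
    exact le_of_sq_le_sq h3 (by positivity)
  have hA : |A 1 h z - 1 ^ 2 * z ^ 2| ≤ z ^ 4 / 2 := by
    refine (A_bound (a := 1) hc h0).trans ?_
    have h2 : (∫ t in (0 : ℝ)..z, |h t|) ≤ ∫ t in (0 : ℝ)..z, 3 / 2 * t :=
      integral_mono_on h0 (hc.abs.intervalIntegrable _ _)
        ((continuous_const.mul continuous_id).intervalIntegrable _ _) fun t ht => by
        rw [abs_of_nonneg (hnn t ht.1)]; exact hle t ht.1 (ht.2.trans h1)
    rw [intervalIntegral.integral_const_mul, integral_id] at h2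
    calc 2 / 3 * z ^ 2 * (∫ t in (0 : ℝ)..z, |h t|) ≤ 2 / 3 * z ^ 2 * (3 / 2 * ((z ^ 2 - 0 ^ 2) / 2)) :=
          mul_le_mul_of_nonneg_left h2 (by positivity)
      _ = z ^ 4 / 2 := by ring
  have h3 : z ^ 2 / 2 ≤ A 1 h z := by
    have h4 := (abs_le.1 hA).1
    have h5 : z ^ 4 ≤ z ^ 2 := by
      have h6 : z ^ 2 ≤ 1 := by nlinarith
      have : z ^ 4 = z ^ 2 * z ^ 2 := by ring
      nlinarith [sq_nonneg z]
    linarith
  refine ⟨h3, ?_, hle z h0 h1⟩
  have h4 : (z / 2) ^ 2 ≤ h z ^ 2 := by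
    rw [hsq z h0]
    refine le_trans ?_ (le_max_left _ _)
    nlinarith [sq_nonneg z]
  exact le_of_sq_le_sq h4 (hnn z h0)

/-- consequences of `E ≤ 0`: growth of `K` -/
lemma Good.zh_le (g : Good a h Z) {z : ℝ} (h0 : 0 < z) (h1 : z ≤ Z) (hE : E a h z ≤ 0) :
    z * h z ≤ 9 / 2 * K a h z := by
  have hp := g.pos z h0 h1
  unfold E at hE
  have h2 : h z ^ 2 * (z * h z) ≤ h z ^ 2 * (9 / 2 * K a h z) := by
    nlinarith [sq_nonneg (P a h z)]
  exact le_of_mul_le_mul_left h2 (by positivity)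

lemma Good.H_nonneg (g : Good a h Z) {z : ℝ} (h0 : 0 ≤ z) (h1 : z ≤ Z) : 0 ≤ H h z := by
  unfold H
  refine integral_nonneg h0 fun t ht => ?_
  rcases ht.1.eq_or_lt with h2 | h2
  · have h3 := g.sq 0 le_rfl (h0.trans h1)
    rw [A_zero] at h3
    rw [← h2]
    nlinarith
  · exact (g.pos t h2 (ht.2.trans h1)).le

lemma Good.K_pos (g : Good a h Z) (ha : a ≠ 0) {z : ℝ} (h0 : 0 ≤ z) (h1 : z ≤ Z) : 0 < K a h z := by
  have := g.H_nonneg h0 h1
  have : 0 < a ^ 2 := by positivity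
  unfold K
  linarith

lemma E_zero (hh : h 0 = 0) : E a h 0 = 0 := by
  unfold E; simp [hh]

lemma Good.E_anti (g : Good a h Z) : AntitoneOn (E a h) (Icc 0 Z) := by
  refine antitoneOn_of_deriv_nonpos (convex_Icc _ _) (continuous_E g.hc).continuousOn ?_ ?_
  · intro z hz
    rw [interior_Icc] at hz
    exact (g.deriv_E hz.1 hz.2).differentiableAt.differentiableWithinAt
  · intro z hz
    rw [interior_Icc] at hz
    rw [(g.deriv_E hz.1 hz.2).deriv]
    have := g.pos z hz.1 hz.2.le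
    have : 0 < h z ^ 3 := by positivity
    linarith

/-- `E` is negative at one -/
lemma Good.E_one (g : Good a h Z) (hZ : 1 ≤ Z) (hh : h 0 = 0)
    (hlow : ∀ z, 0 ≤ z → z ≤ 1 → z / 2 ≤ h z) : E a h 1 ≤ -(1 / 576) := by
  have h1 : AntitoneOn (fun z => E a h z + z ^ 4 / 576) (Icc 0 1) := by
    refine antitoneOn_of_deriv_nonpos (convex_Icc _ _)
      ((continuous_E g.hc).add (by fun_prop)).continuousOn ?_ ?_
    · intro z hz
      rw [interior_Icc] at hz
      exact ((g.deriv_E hz.1 (hz.2.trans_le hZ)).add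
        ((hasDerivAt_pow 4 z).div_const 576)).differentiableAt.differentiableWithinAt
    · intro z hz
      rw [interior_Icc] at hz
      have h2 := (g.deriv_E hz.1 (hz.2.trans_le hZ)).add ((hasDerivAt_pow 4 z).div_const 576)
      rw [show (fun z => E a h z + z ^ 4 / 576) = E a h + fun z => z ^ 4 / 576 from rfl, h2.deriv]
      have h3 := pow_le_pow_left₀ (by linarith [hz.1]) (hlow z hz.1.le hz.2.le) 3
      push_cast
      have h4 : (z / 2) ^ 3 = z ^ 3 / 8 := by ring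
      have h5 : z ^ (4 - 1) = z ^ 3 := by norm_num
      rw [h5]
      linarith
  have h2 := h1 (left_mem_Icc.2 zero_le_one) (right_mem_Icc.2 zero_le_one) zero_le_one
  simp only [E_zero hh] at h2
  norm_num at h2 ⊢
  linarith

theorem good_of_trunc (hc : Continuous h) (hs : ∀ z, 0 ≤ z → h z = √(max (A 1 h z) (B z))) :
    ∀ Z, Good 1 h Z := by
  have hnn : ∀ z, 0 ≤ z → 0 ≤ h z := fun z hz => by rw [hs z hz]; exact Real.sqrt_nonneg _
  have hsq : ∀ z, 0 ≤ z → h z ^ 2 = max (A 1 h z) (B z) := fun z hz => by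
    rw [hs z hz, Real.sq_sqrt]
    exact le_max_of_le_right (by unfold B; positivity)
  have hpos : ∀ z, 0 < z → 0 < h z := fun z hz => by
    have h1 : 0 < h z ^ 2 := by
      rw [hsq z hz.le]; exact lt_of_lt_of_le (B_pos hz) (le_max_right _ _)
    exact lt_of_le_of_ne (hnn z hz.le) fun h2 => by rw [← h2] at h1; simp at h1
  have hh0 : h 0 = 0 := by
    have h1 := hsq 0 le_rfl
    rw [A_zero] at h1
    unfold B at h1
    simpa using h1
  -- it is enough that `B < A`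
  suffices hmain : ∀ z, 0 < z → B z < A 1 h z by
    intro Z
    refine ⟨hc, fun z hz _ => ?_, fun z hz _ => hpos z hz⟩
    rcases hz.eq_or_lt with h1 | h1
    · rw [← h1, hh0, A_zero]; simp
    · rw [hsq z hz, max_eq_left (hmain z h1).le]
  by_contra hcon
  push Not at hcon
  obtain ⟨x, hx0, hx⟩ := hcon
  have hnear : ∀ z, 0 < z → z ≤ 1 → B z < A 1 h z := by
    intro z h0 h1
    have h2 := (near hc hs h0.le h1).1
    have h3 := B_le h0.le
    have : 0 < z ^ 2 := by positivity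
    linarith
  have hx1 : 1 ≤ x := by
    by_contra h1
    push Not at h1
    exact absurd (hnear x hx0 h1.le) (not_lt.2 hx)
  have hBc : ContinuousOn B (Ici 1) := by
    have h1 : ContinuousOn (fun z : ℝ => B (max z 0)) (Ici 1) := continuous_B'.continuousOn
    refine h1.congr fun z hz => ?_
    change B z = B (max z 0)
    rw [max_eq_left (zero_le_one.trans (mem_Ici.1 hz))]
  set S : Set ℝ := {z | z ∈ Ici (1 : ℝ) ∧ A 1 h z ≤ B z} with hS
  have hSc : IsClosed S := by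
    have h1 : S = Ici 1 ∩ (fun z => A 1 h z - B z) ⁻¹' Iic 0 := by
      ext z
      simp only [hS, mem_ofPred_eq, mem_inter_iff, mem_preimage, mem_Iic, sub_nonpos]
    rw [h1]
    exact ((continuous_A hc).continuousOn.sub hBc).preimage_isClosed_of_isClosed isClosed_Ici
      isClosed_Iic
  have hSne : S.Nonempty := ⟨x, hx1, hx⟩
  have hSb : BddBelow S := ⟨1, fun z hz => hz.1⟩
  set z₁ := sInf S with hz₁
  have hz₁S : z₁ ∈ S := hSc.csInf_mem hSne hSb
  have h1z : 1 ≤ z₁ := hz₁S.1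
  have hbefore : ∀ z, 0 < z → z < z₁ → B z < A 1 h z := by
    intro z h0 h1
    by_contra h2
    push Not at h2
    rcases le_or_gt z 1 with h3 | h3
    · exact absurd (hnear z h0 h3) (not_lt.2 h2)
    · exact absurd (csInf_le hSb (show z ∈ S from ⟨h3.le, h2⟩)) (not_le.2 h1)
  have hg : Good 1 h z₁ := by
    have h2 : ∀ z, 0 ≤ z → z < z₁ → h z ^ 2 = A 1 h z := by
      intro z hz hz2
      rcases hz.eq_or_lt with h1 | h1
      · rw [← h1, hh0, A_zero]; simp
      · rw [hsq z hz, max_eq_left (hbefore z h1 hz2).le]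
    refine ⟨hc, fun z hz hz2 => ?_, fun z hz _ => hpos z hz⟩
    rcases hz2.lt_or_eq with h3 | h3
    · exact h2 z hz h3
    · -- continuity
      subst h3
      have h4 : IsClosed {z | h z ^ 2 = A 1 h z} :=
        isClosed_eq (hc.pow 2) (continuous_A hc)
      have h5 : Ico 0 z₁ ⊆ {z | h z ^ 2 = A 1 h z} := fun t ht => h2 t ht.1 ht.2
      have h6 := closure_minimal h5 h4
      rw [closure_Ico (by linarith : (0 : ℝ) ≠ z₁)] at h6
      exact h6 (right_mem_Icc.2 hz)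
  have hE1 := hg.E_one h1z hh0 fun z h0 h1 => (near hc hs h0 h1).2.1
  have hEz : ∀ z, 1 ≤ z → z ≤ z₁ → E 1 h z ≤ -(1 / 576) := fun z h0 h1 =>
    (hg.E_anti ⟨zero_le_one, h1z⟩ ⟨by linarith, h1⟩ h0).trans hE1
  -- growth of `K`
  have hK : AntitoneOn (fun z => K 1 h z ^ 2 / z ^ 3) (Icc 1 z₁) := by
    refine antitoneOn_of_deriv_nonpos (convex_Icc _ _) ?_ ?_ ?_
    · refine ContinuousOn.div ((continuous_K hc).pow 2).continuousOn (by fun_prop) fun z hz => ?_
      have : 0 < z := by linarith [hz.1]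
      positivity
    · intro z hz
      rw [interior_Icc] at hz
      have h0 : 0 < z := by linarith [hz.1]
      exact (((hasDerivAt_K hc z).pow 2).div (hasDerivAt_pow 3 z)
        (by positivity)).differentiableAt.differentiableWithinAt
    · intro z hz
      rw [interior_Icc] at hz
      have h0 : 0 < z := by linarith [hz.1]
      have h2 := ((hasDerivAt_K (a := 1) hc z).pow 2).div (hasDerivAt_pow 3 z) (by positivity)
      have h2' : deriv (fun z => K 1 h z ^ 2 / z ^ 3) z = _ := h2.deriv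
      rw [h2']
      have h3 := hg.zh_le h0 hz.2.le (by linarith [hEz z hz.1.le hz.2.le])
      have h4 := hg.K_pos one_ne_zero h0.le hz.2.le
      apply div_nonpos_of_nonpos_of_nonneg _ (by positivity)
      simp only [Pi.pow_apply]
      push_cast
      have h5 : K 1 h z * z ^ 2 * (z * h z) ≤ K 1 h z * z ^ 2 * (9 / 2 * K 1 h z) :=
        mul_le_mul_of_nonneg_left h3 (by positivity)
      norm_num
      nlinarith
  have hK1 := hK (left_mem_Icc.2 h1z) (right_mem_Icc.2 h1z) h1z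
  simp only [one_pow, div_one] at hK1
  have hK1' : K 1 h 1 ≤ 2 := by
    unfold K H
    have h2 : (∫ t in (0 : ℝ)..1, h t) ≤ ∫ t in (0 : ℝ)..1, 3 / 2 * t :=
      integral_mono_on zero_le_one (hc.intervalIntegrable _ _)
        ((continuous_const.mul continuous_id).intervalIntegrable _ _) fun t ht =>
        (near hc hs ht.1 ht.2).2.2
    rw [intervalIntegral.integral_const_mul, integral_id] at h2
    norm_num at h2 ⊢
    linarith
  have hz0 : 0 < z₁ := by linarith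
  have hK0 := hg.K_pos one_ne_zero hz0.le le_rfl
  have hK10 := hg.K_pos one_ne_zero zero_le_one h1z
  rw [div_le_iff₀ (by positivity)] at hK1
  have hK2 : K 1 h z₁ ^ 2 ≤ 4 * z₁ ^ 3 := by
    refine hK1.trans ?_
    refine mul_le_mul_of_nonneg_right ?_ (by positivity)
    nlinarith
  -- the contradiction
  have hE2 := hEz z₁ h1z le_rfl
  have hh2 : h z₁ ^ 2 = B z₁ := by
    rw [hsq z₁ hz0.le, max_eq_right hz₁S.2]
  have h7 : 1 / 288 ≤ K 1 h z₁ * B z₁ := by
    have h8 : 0 ≤ P 1 h z₁ ^ 2 / 2 := by positivity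
    have h9 : 0 ≤ z₁ / 9 * h z₁ ^ 3 := by
      have := hpos z₁ hz0
      positivity
    unfold E at hE2
    rw [hh2] at hE2
    linarith
  have h8 : (K 1 h z₁ * B z₁) ^ 2 ≤ (1 / 512) ^ 2 := by
    rw [mul_pow]
    have h9 : B z₁ ^ 2 = z₁ ^ 4 / (1024 ^ 2 * (1 + z₁) ^ 8) := by
      unfold B
      rw [← pow_mul, div_pow, mul_pow, ← pow_mul]
      norm_num
    calc K 1 h z₁ ^ 2 * B z₁ ^ 2 ≤ 4 * z₁ ^ 3 * B z₁ ^ 2 :=
          mul_le_mul_of_nonneg_right hK2 (by positivity)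
      _ = 4 / 1024 ^ 2 * (z₁ ^ 7 / (1 + z₁) ^ 8) := by
          rw [h9]
          generalize (1 + z₁) ^ 8 = w
          rw [mul_comm ((1024 : ℝ) ^ 2) w, ← div_div]
          ring
      _ ≤ 4 / 1024 ^ 2 * 1 := by
          refine mul_le_mul_of_nonneg_left ?_ (by norm_num)
          rw [div_le_one (by positivity)]
          calc z₁ ^ 7 ≤ (1 + z₁) ^ 7 := pow_le_pow_left₀ hz0.le (by linarith) 7
            _ ≤ (1 + z₁) ^ 8 := pow_le_pow_right₀ (by linarith) (by norm_num)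
      _ = (1 / 512) ^ 2 := by norm_num
  have h9 : (1 / 288 : ℝ) ^ 2 ≤ (K 1 h z₁ * B z₁) ^ 2 := pow_le_pow_left₀ (by norm_num) h7 2
  have h10 := h9.trans h8
  norm_num at h10

end Pool.Agent.Q64.SF
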