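import Pool.Agent.Q64.SF.Apriori

/-! # Convergence at infinity -/

open Set Filter Topology MeasureTheory intervalIntegral

namespace Pool.Agent.Q64.SF

/-- the moving equilibrium -/
noncomputable def Y (h : ℝ → ℝ) (z : ℝ) : ℝ := 3 * K 1 h z / z

/-- the second energy -/
noncomputable def EE (h : ℝ → ℝ) (z : ℝ) : ℝ := E 1 h z + z / 18 * Y h z ^ 3

variable {h : ℝ → ℝ}

lemma Y_pos (g : ∀ Z, Good 1 h Z) {z : ℝ} (hz : 0 < z) : 0 < Y h z := by
  have := (g z).K_pos one_ne_zero hz.le le_rfl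
  unfold Y
  positivity

lemma hasDerivAt_Y (hc : Continuous h) {z : ℝ} (hz : 0 < z) :
    HasDerivAt (Y h) ((h z - Y h z) / z) z := by
  have h1 := ((hasDerivAt_K (a := 1) hc z).const_mul 3).div (hasDerivAt_id z) hz.ne'
  refine h1.congr_deriv ?_
  unfold Y
  simp only [id]
  field_simp

lemma EE_eq {z : ℝ} (hz : 0 < z) :
    EE h z = P 1 h z ^ 2 / 2 + z / 18 * ((h z - Y h z) ^ 2 * (2 * h z + Y h z)) := by
  have h1 : K 1 h z = z * Y h z / 3 := by unfold Y; field_simp
  unfold EE E
  rw [h1]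
  ring

lemma hasDerivAt_EE (g : ∀ Z, Good 1 h Z) {z : ℝ} (hz : 0 < z) :
    HasDerivAt (EE h) (-((h z - Y h z) ^ 2 * (h z + 2 * Y h z) / 18)) z := by
  have h1 := ((g (z + 1)).deriv_E hz (by linarith)).add
    (((hasDerivAt_id z).div_const 18).mul ((hasDerivAt_Y (g 0).hc hz).pow 3))
  refine h1.congr_deriv ?_
  simp only [id, Pi.pow_apply]
  push_cast
  field_simp
  ring

lemma antitone_EE (g : ∀ Z, Good 1 h Z) : AntitoneOn (EE h) (Ici 1) := by
  refine antitoneOn_of_deriv_nonpos (convex_Ici _) ?_ ?_ ?_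
  · intro z hz
    exact (hasDerivAt_EE g (by linarith [mem_Ici.1 hz])).continuousAt.continuousWithinAt
  · intro z hz
    rw [interior_Ici] at hz
    exact (hasDerivAt_EE g (by linarith [mem_Ioi.1 hz])).differentiableAt.differentiableWithinAt
  · intro z hz
    rw [interior_Ici] at hz
    have h0 : 0 < z := by linarith [mem_Ioi.1 hz]
    rw [(hasDerivAt_EE g h0).deriv]
    have := (g z).pos z h0 le_rfl
    have := Y_pos g h0
    have : 0 ≤ (h z - Y h z) ^ 2 * (h z + 2 * Y h z) / 18 := by positivity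
    linarith

theorem exists_limit (g : ∀ Z, Good 1 h Z) (hE1 : E 1 h 1 ≤ -(1 / 576)) :
    ∃ L : ℝ, 0 < L ∧ Tendsto h atTop (𝓝 L) := by
  have hc := (g 0).hc
  have hpos : ∀ z, 0 < z → 0 < h z := fun z hz => (g z).pos z hz le_rfl
  have hE : ∀ z, 1 ≤ z → E 1 h z ≤ -(1 / 576) := fun z hz =>
    ((g z).E_anti ⟨zero_le_one, hz⟩ ⟨by linarith, le_rfl⟩ hz).trans hE1
  set C₁ := EE h 1 with hC₁
  have hEE : ∀ z, 1 ≤ z → EE h z ≤ C₁ := fun z hz => antitone_EE g (mem_Ici.2 le_rfl) hz hz
  have hEE0 : ∀ z, 0 < z → 0 ≤ EE h z := fun z hz => by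
    rw [EE_eq hz]
    have := hpos z hz
    have := Y_pos g hz
    positivity
  have hC₁0 : 0 ≤ C₁ := hEE0 1 one_pos
  have hzY : ∀ z, 1 ≤ z → 1 / 32 ≤ z * Y h z ^ 3 := by
    intro z hz
    have h1 := hEE0 z (by linarith)
    have h2 := hE z hz
    unfold EE at h1
    linarith
  -- `z Y ^ 3 → ∞`
  have hG : MonotoneOn (fun z => -144 * E 1 h z - 36 * EE h z - 1 / 32 * Real.log z) (Ici 1) := by
    have hd : ∀ z, 0 < z → HasDerivAt
        (fun z => -144 * E 1 h z - 36 * EE h z - 1 / 32 * Real.log z)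
        (8 * h z ^ 3 + 2 * ((h z - Y h z) ^ 2 * (h z + 2 * Y h z)) - 1 / 32 * z⁻¹) z := by
      intro z hz
      have h1 := ((((g (z + 1)).deriv_E hz (by linarith)).const_mul (-144)).sub
        ((hasDerivAt_EE g hz).const_mul 36)).sub ((Real.hasDerivAt_log hz.ne').const_mul (1 / 32))
      refine h1.congr_deriv ?_
      ring
    refine monotoneOn_of_deriv_nonneg (convex_Ici _) ?_ ?_ ?_
    · intro z hz
      exact (hd z (by linarith [mem_Ici.1 hz])).continuousAt.continuousWithinAt
    · intro z hz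
      rw [interior_Ici] at hz
      exact (hd z (by linarith [mem_Ioi.1 hz])).differentiableAt.differentiableWithinAt
    · intro z hz
      rw [interior_Ici] at hz
      have h0 : 0 < z := by linarith [mem_Ioi.1 hz]
      rw [(hd z h0).deriv]
      have hp := hpos z h0
      have hy := Y_pos g h0
      have h2 : 1 / 32 * z⁻¹ ≤ Y h z ^ 3 := by
        have h3 := hzY z (le_of_lt hz)
        rw [← div_eq_mul_inv, div_le_iff₀ h0]
        linarith
      have h3 : Y h z ^ 3 ≤ 8 * h z ^ 3 + 2 * ((h z - Y h z) ^ 2 * (h z + 2 * Y h z)) := by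
        set u := h z
        set y := Y h z
        have : 0 ≤ 10 * u ^ 3 - 6 * u * y ^ 2 + 3 * y ^ 3 := by
          nlinarith [mul_nonneg hp.le (sq_nonneg (u - y / 2)), mul_nonneg hy.le (sq_nonneg (u - y / 2)),
            mul_nonneg hp.le (sq_nonneg (u - y)), mul_nonneg hy.le (sq_nonneg (u - y)),
            mul_pos hp hy, mul_nonneg hp.le (sq_nonneg u), pow_pos hp 3, pow_pos hy 3]
        nlinarith
      linarith
  obtain ⟨z₀, hz₀, hz₀Y⟩ : ∃ z₀, 1 ≤ z₀ ∧ 162 * C₁ < z₀ * Y h z₀ ^ 3 := by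
    set G₁ := -144 * E 1 h 1 - 36 * EE h 1 - 1 / 32 * Real.log 1 with hG₁
    obtain ⟨z, hz, hz2⟩ : ∃ z : ℝ, 1 ≤ z ∧ 8 * (162 * C₁) - G₁ < 1 / 32 * Real.log z := by
      have h1 := (Real.tendsto_log_atTop.const_mul_atTop (by norm_num : (0 : ℝ) < 1 / 32))
      obtain ⟨z, hz⟩ := ((eventually_ge_atTop 1).and
        (h1.eventually (eventually_gt_atTop (8 * (162 * C₁) - G₁)))).exists
      exact ⟨z, hz.1, hz.2⟩
    refine ⟨z, hz, ?_⟩
    have h2 := hG (mem_Ici.2 le_rfl) hz hz
    simp only at h2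
    have h3 := hEE0 z (by linarith)
    have h4 : E 1 h z = EE h z - z / 18 * Y h z ^ 3 := by unfold EE; ring
    rw [h4] at h2
    have h5 : G₁ ≤ -144 * (EE h z - z / 18 * Y h z ^ 3) - 36 * EE h z - 1 / 32 * Real.log z := h2
    nlinarith
  have hz₀0 : 0 < z₀ := by linarith
  -- the key bound
  have hkey : ∀ z, 1 ≤ z → (h z - Y h z) ^ 2 * (2 * h z + Y h z) ≤ 18 * C₁ / z := by
    intro z hz
    have h0 : 0 < z := by linarith
    have h1 := hEE z hz
    rw [EE_eq h0] at h1
    rw [le_div_iff₀ h0]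
    nlinarith [sq_nonneg (P 1 h z)]
  -- lower bound of `Y √Y`
  set s := √(18 * C₁) with hs
  have hs0 : 0 ≤ s := Real.sqrt_nonneg _
  have hss : s ^ 2 = 18 * C₁ := Real.sq_sqrt (by positivity)
  have hW : MonotoneOn (fun z => Y h z * √(Y h z) - 3 * s / √z) (Ici 1) := by
    have hd : ∀ z, 0 < z → HasDerivAt (fun z => Y h z * √(Y h z) - 3 * s / √z)
        (3 / 2 * √(Y h z) * ((h z - Y h z) / z) + 3 / 2 * s / (z * √z)) z := by
      intro z hz
      have hy := Y_pos g hz
      have hsy := Real.sqrt_pos.2 hy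
      have hsz := Real.sqrt_pos.2 hz
      have hY := hasDerivAt_Y hc hz
      have h1 := (hY.mul (hY.sqrt hy.ne')).sub
        ((hasDerivAt_const z (3 * s)).div ((hasDerivAt_id z).sqrt hz.ne') hsz.ne')
      refine h1.congr_deriv ?_
      simp only [id, zero_mul, zero_sub]
      have e1 : √(Y h z) * √(Y h z) = Y h z := Real.mul_self_sqrt hy.le
      have e2 : √z * √z = z := Real.mul_self_sqrt hz.le
      have e3 : (h z - Y h z) / z * √(Y h z) + Y h z * ((h z - Y h z) / z / (2 * √(Y h z))) =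
          3 / 2 * √(Y h z) * ((h z - Y h z) / z) := by
        have : Y h z * ((h z - Y h z) / z / (2 * √(Y h z))) =
            √(Y h z) * √(Y h z) * ((h z - Y h z) / z / (2 * √(Y h z))) := by rw [e1]
        rw [this]
        field_simp
        ring
      have e4 : -(3 * s * (1 / (2 * √z))) / √z ^ 2 = -(3 / 2 * s / (z * √z)) := by
        rw [sq, e2]
        field_simp
      rw [e3, e4]
      ring
    refine monotoneOn_of_deriv_nonneg (convex_Ici _) ?_ ?_ ?_
    · intro z hz
      exact (hd z (by linarith [mem_Ici.1 hz])).continuousAt.continuousWithinAt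
    · intro z hz
      rw [interior_Ici] at hz
      exact (hd z (by linarith [mem_Ioi.1 hz])).differentiableAt.differentiableWithinAt
    · intro z hz
      rw [interior_Ici] at hz
      have h0 : 0 < z := by linarith [mem_Ioi.1 hz]
      rw [(hd z h0).deriv]
      have hy := Y_pos g h0
      have hp := hpos z h0
      have hsz := Real.sqrt_pos.2 h0
      have h1 : √(Y h z) * (Y h z - h z) * √z ≤ s := by
        refine le_of_sq_le_sq ?_ hs0
        rw [mul_pow, mul_pow, Real.sq_sqrt hy.le, Real.sq_sqrt h0.le, hss]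
        have h2 := hkey z (le_of_lt hz)
        rw [le_div_iff₀ h0] at h2
        have h3 : Y h z * (Y h z - h z) ^ 2 * z ≤ (h z - Y h z) ^ 2 * (2 * h z + Y h z) * z := by
          refine mul_le_mul_of_nonneg_right ?_ h0.le
          nlinarith [sq_nonneg (h z - Y h z)]
        linarith
      have h2 : 3 / 2 * √(Y h z) * ((h z - Y h z) / z) + 3 / 2 * s / (z * √z) =
          3 / 2 / (z * √z) * (s - √(Y h z) * (Y h z - h z) * √z) := by
        field_simp
        ring
      rw [h2]
      exact mul_nonneg (by positivity) (by linarith)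
  set κ := Y h z₀ * √(Y h z₀) - 3 * s / √z₀ with hκ
  have hκ0 : 0 < κ := by
    have hy := Y_pos g hz₀0
    have hsz := Real.sqrt_pos.2 hz₀0
    rw [hκ, sub_pos, div_lt_iff₀ hsz]
    refine lt_of_pow_lt_pow_left₀ 2 (by positivity) ?_
    rw [mul_pow, mul_pow, mul_pow, Real.sq_sqrt hy.le, Real.sq_sqrt hz₀0.le, hss]
    nlinarith
  have hYlow : ∀ z, z₀ ≤ z → min 1 (κ ^ 2) ≤ Y h z := by
    intro z hz
    have h0 : 0 < z := by linarith
    have hy := Y_pos g h0
    have h1 := hW hz₀ (hz₀.trans hz) hz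
    simp only at h1
    have h2 : 0 ≤ 3 * s / √z := by positivity
    have h3 : κ ≤ Y h z * √(Y h z) := by linarith
    rcases le_or_gt 1 (Y h z) with h4 | h4
    · exact (min_le_left _ _).trans h4
    · refine (min_le_right _ _).trans ?_
      have h5 : κ ≤ √(Y h z) := by
        refine h3.trans ?_
        have := Real.sqrt_nonneg (Y h z)
        nlinarith
      calc κ ^ 2 ≤ √(Y h z) ^ 2 := pow_le_pow_left₀ hκ0.le h5 2
        _ = Y h z := Real.sq_sqrt hy.le
  set m := min 1 (κ ^ 2) with hm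
  have hm0 : 0 < m := lt_min one_pos (by positivity)
  -- difference bound
  set C₂ := √(18 * C₁ / m) with hC₂
  have hC₂0 : 0 ≤ C₂ := Real.sqrt_nonneg _
  have hdiff : ∀ z, z₀ ≤ z → |h z - Y h z| ≤ C₂ / √z := by
    intro z hz
    have h0 : 0 < z := by linarith
    have hsz := Real.sqrt_pos.2 h0
    have hp := hpos z h0
    have hy := hYlow z hz
    rw [le_div_iff₀ hsz]
    refine Real.le_sqrt_of_sq_le ?_ 
    rw [mul_pow, sq_abs, Real.sq_sqrt h0.le, le_div_iff₀ hm0]
    have h2 := hkey z (hz₀.trans hz)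
    rw [le_div_iff₀ h0] at h2
    have h3 : (h z - Y h z) ^ 2 * z * m ≤ (h z - Y h z) ^ 2 * z * (2 * h z + Y h z) :=
      mul_le_mul_of_nonneg_left (by linarith) (by positivity)
    linarith
  -- `Y + 2 C₂ / √z` is decreasing
  have hanti : AntitoneOn (fun z => Y h z + 2 * C₂ / √z) (Ici z₀) := by
    have hd : ∀ z, 0 < z → HasDerivAt (fun z => Y h z + 2 * C₂ / √z)
        ((h z - Y h z) / z - C₂ / (z * √z)) z := by
      intro z hz
      have hsz := Real.sqrt_pos.2 hz
      have h1 := (hasDerivAt_Y hc hz).add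
        ((hasDerivAt_const z (2 * C₂)).div ((hasDerivAt_id z).sqrt hz.ne') hsz.ne')
      refine h1.congr_deriv ?_
      simp only [id, zero_mul, zero_sub]
      have e2 : √z * √z = z := Real.mul_self_sqrt hz.le
      have e4 : -(2 * C₂ * (1 / (2 * √z))) / √z ^ 2 = -(C₂ / (z * √z)) := by
        rw [sq, e2]
        field_simp
      rw [e4]
      ring
    refine antitoneOn_of_deriv_nonpos (convex_Ici _) ?_ ?_ ?_
    · intro z hz
      exact (hd z (by linarith [mem_Ici.1 hz])).continuousAt.continuousWithinAt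
    · intro z hz
      rw [interior_Ici] at hz
      exact (hd z (by linarith [mem_Ioi.1 hz])).differentiableAt.differentiableWithinAt
    · intro z hz
      rw [interior_Ici] at hz
      have h0 : 0 < z := by linarith [mem_Ioi.1 hz]
      rw [(hd z h0).deriv]
      have hsz := Real.sqrt_pos.2 h0
      have h1 := (abs_le.1 (hdiff z (le_of_lt hz))).2
      have h2 : (h z - Y h z) / z ≤ C₂ / √z / z := div_le_div_of_nonneg_right h1 h0.le
      have h3 : C₂ / √z / z = C₂ / (z * √z) := by rw [div_div, mul_comm]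
      linarith
  have hlim : ∃ L, m ≤ L ∧ Tendsto (fun z => Y h z + 2 * C₂ / √z) atTop (𝓝 L) := by
    set f : ℝ → ℝ := fun z => Y h (max z z₀) + 2 * C₂ / √(max z z₀) with hf
    have hfa : Antitone f := fun x y hxy =>
      hanti (mem_Ici.2 (le_max_right _ _)) (mem_Ici.2 (le_max_right _ _)) (max_le_max hxy le_rfl)
    have hfb : ∀ z, m ≤ f z := fun z => by
      have h1 := hYlow (max z z₀) (le_max_right _ _)
      have : 0 ≤ 2 * C₂ / √(max z z₀) := by positivity
      simp only [hf]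
      linarith
    have h1 := tendsto_atTop_ciInf hfa ⟨m, by rintro _ ⟨z, rfl⟩; exact hfb z⟩
    refine ⟨_, le_ciInf hfb, h1.congr' ?_⟩
    filter_upwards [eventually_ge_atTop z₀] with z hz
    simp only [hf, max_eq_left hz]
  obtain ⟨L, hL, hL2⟩ := hlim
  have hsq : Tendsto (fun z : ℝ => 1 / √z) atTop (𝓝 0) :=
    (tendsto_const_nhds (x := (1 : ℝ))).div_atTop Real.tendsto_sqrt_atTop
  refine ⟨L, hm0.trans_le hL, ?_⟩
  have h1 : Tendsto (Y h) atTop (𝓝 L) := by
    have h2 := hL2.sub (hsq.const_mul (2 * C₂))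
    rw [mul_zero, sub_zero] at h2
    refine h2.congr fun z => ?_
    ring
  have h2 : Tendsto (fun z => h z - Y h z) atTop (𝓝 0) := by
    have h3 := hsq.const_mul C₂
    rw [mul_zero] at h3
    refine squeeze_zero_norm' ?_ h3
    filter_upwards [eventually_ge_atTop z₀] with z hz
    rw [Real.norm_eq_abs, mul_one_div]
    exact hdiff z hz
  have h3 := h1.add h2
  rw [add_zero] at h3
  refine h3.congr fun z => ?_
  ring

end Pool.Agent.Q64.SF
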