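import Mathlib

/-! # Shock formation profiles: the integrated equation

`h ^ 2 = A a h`, `A a h z = a² z² + (1/3) ∫₀ᶻ (z - t) (z - 3 t) h t dt`. -/

open Set Filter Topology MeasureTheory intervalIntegral

namespace Pool.Agent.Q64.SF

noncomputable def H (h : ℝ → ℝ) (z : ℝ) : ℝ := ∫ t in (0 : ℝ)..z, h t
noncomputable def M1 (h : ℝ → ℝ) (z : ℝ) : ℝ := ∫ t in (0 : ℝ)..z, t * h t
noncomputable def M2 (h : ℝ → ℝ) (z : ℝ) : ℝ := ∫ t in (0 : ℝ)..z, t ^ 2 * h t
noncomputable def P (a : ℝ) (h : ℝ → ℝ) (z : ℝ) : ℝ := a ^ 2 * z + (z * H h z - 2 * M1 h z) / 3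
noncomputable def K (a : ℝ) (h : ℝ → ℝ) (z : ℝ) : ℝ := a ^ 2 + H h z / 3
noncomputable def A (a : ℝ) (h : ℝ → ℝ) (z : ℝ) : ℝ :=
  a ^ 2 * z ^ 2 + (z ^ 2 * H h z - 4 * z * M1 h z + 3 * M2 h z) / 3
noncomputable def E (a : ℝ) (h : ℝ → ℝ) (z : ℝ) : ℝ :=
  P a h z ^ 2 / 2 + z / 9 * h z ^ 3 - K a h z * h z ^ 2 / 2

variable {a : ℝ} {h : ℝ → ℝ}

lemma hasDerivAt_H (hc : Continuous h) (z : ℝ) : HasDerivAt (H h) (h z) z :=
  integral_hasDerivAt_right (hc.intervalIntegrable _ _) (hc.stronglyMeasurableAtFilter _ _)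
    hc.continuousAt

lemma hasDerivAt_M1 (hc : Continuous h) (z : ℝ) : HasDerivAt (M1 h) (z * h z) z := by
  have h1 : Continuous fun t => t * h t := continuous_id.mul hc
  exact integral_hasDerivAt_right (h1.intervalIntegrable _ _) (h1.stronglyMeasurableAtFilter _ _)
    h1.continuousAt

lemma hasDerivAt_M2 (hc : Continuous h) (z : ℝ) : HasDerivAt (M2 h) (z ^ 2 * h z) z := by
  have h1 : Continuous fun t => t ^ 2 * h t := (continuous_pow 2).mul hc
  exact integral_hasDerivAt_right (h1.intervalIntegrable _ _) (h1.stronglyMeasurableAtFilter _ _)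
    h1.continuousAt

lemma hasDerivAt_K (hc : Continuous h) (z : ℝ) : HasDerivAt (K a h) (h z / 3) z := by
  have := ((hasDerivAt_H hc z).div_const 3).const_add (a ^ 2)
  exact this

lemma hasDerivAt_P (hc : Continuous h) (z : ℝ) :
    HasDerivAt (P a h) (K a h z - z * h z / 3) z := by
  have h1 := ((hasDerivAt_id z).const_mul (a ^ 2)).add
    ((((hasDerivAt_id z).mul (hasDerivAt_H hc z)).sub ((hasDerivAt_M1 hc z).const_mul 2)).div_const 3)
  refine h1.congr_deriv ?_
  unfold K
  simp only [id]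
  ring

lemma hasDerivAt_A (hc : Continuous h) (z : ℝ) : HasDerivAt (A a h) (2 * P a h z) z := by
  have h1 := ((hasDerivAt_pow 2 z).const_mul (a ^ 2)).add
    (((((hasDerivAt_pow 2 z).mul (hasDerivAt_H hc z)).sub
      (((hasDerivAt_id z).const_mul 4).mul (hasDerivAt_M1 hc z))).add
      ((hasDerivAt_M2 hc z).const_mul 3)).div_const 3)
  refine h1.congr_deriv ?_
  unfold P
  simp only [id]
  push_cast
  ring

lemma continuous_H (hc : Continuous h) : Continuous (H h) :=
  continuous_iff_continuousAt.2 fun z => (hasDerivAt_H hc z).continuousAt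
lemma continuous_K (hc : Continuous h) : Continuous (K a h) :=
  continuous_iff_continuousAt.2 fun z => (hasDerivAt_K hc z).continuousAt
lemma continuous_P (hc : Continuous h) : Continuous (P a h) :=
  continuous_iff_continuousAt.2 fun z => (hasDerivAt_P hc z).continuousAt
lemma continuous_A (hc : Continuous h) : Continuous (A a h) :=
  continuous_iff_continuousAt.2 fun z => (hasDerivAt_A hc z).continuousAt
lemma continuous_E (hc : Continuous h) : Continuous (E a h) := by
  have h1 := continuous_P (a := a) hc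
  have h2 := continuous_K (a := a) hc
  unfold E
  fun_prop

@[simp] lemma H_zero : H h 0 = 0 := by simp [H]
@[simp] lemma M1_zero : M1 h 0 = 0 := by simp [M1]
@[simp] lemma M2_zero : M2 h 0 = 0 := by simp [M2]
@[simp] lemma P_zero : P a h 0 = 0 := by simp [P]
@[simp] lemma A_zero : A a h 0 = 0 := by simp [A]
@[simp] lemma K_zero : K a h 0 = a ^ 2 := by simp [K]

lemma A_eq (hc : Continuous h) (z : ℝ) :
    A a h z = a ^ 2 * z ^ 2 + (∫ t in (0 : ℝ)..z, (z - t) * (z - 3 * t) * h t) / 3 := by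
  have h0 : IntervalIntegrable h volume 0 z := hc.intervalIntegrable _ _
  have h1 : IntervalIntegrable (fun t => t * h t) volume 0 z :=
    (continuous_id.mul hc).intervalIntegrable _ _
  have h2 : IntervalIntegrable (fun t => t ^ 2 * h t) volume 0 z :=
    ((continuous_pow 2).mul hc).intervalIntegrable _ _
  have h3 : (∫ t in (0 : ℝ)..z, (z - t) * (z - 3 * t) * h t) =
      z ^ 2 * H h z - 4 * z * M1 h z + 3 * M2 h z := by
    unfold H M1 M2
    rw [← intervalIntegral.integral_const_mul, ← intervalIntegral.integral_const_mul, ← intervalIntegral.integral_const_mul,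
      ← integral_sub (h0.const_mul _) (h1.const_mul _),
      ← integral_add ((h0.const_mul _).sub (h1.const_mul _)) (h2.const_mul _)]
    refine integral_congr fun t _ => ?_
    ring
  rw [h3, A]

/-- Lipschitz estimate -/
lemma A_sub {h₁ h₂ : ℝ → ℝ} (hc₁ : Continuous h₁) (hc₂ : Continuous h₂) {z : ℝ} (hz : 0 ≤ z) :
    |A a h₁ z - A a h₂ z| ≤ 2 / 3 * z ^ 2 * ∫ t in (0 : ℝ)..z, |h₁ t - h₂ t| := by
  rw [A_eq hc₁, A_eq hc₂]
  have hc : Continuous fun t => (z - t) * (z - 3 * t) := by fun_prop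
  have h1 : IntervalIntegrable (fun t => (z - t) * (z - 3 * t) * h₁ t) volume 0 z :=
    (hc.mul hc₁).intervalIntegrable _ _
  have h2 : IntervalIntegrable (fun t => (z - t) * (z - 3 * t) * h₂ t) volume 0 z :=
    (hc.mul hc₂).intervalIntegrable _ _
  have e : a ^ 2 * z ^ 2 + (∫ t in (0 : ℝ)..z, (z - t) * (z - 3 * t) * h₁ t) / 3 -
      (a ^ 2 * z ^ 2 + (∫ t in (0 : ℝ)..z, (z - t) * (z - 3 * t) * h₂ t) / 3) =
      (∫ t in (0 : ℝ)..z, (z - t) * (z - 3 * t) * (h₁ t - h₂ t)) / 3 := by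
    have h4 : (∫ t in (0 : ℝ)..z, (z - t) * (z - 3 * t) * (h₁ t - h₂ t)) =
        (∫ t in (0 : ℝ)..z, (z - t) * (z - 3 * t) * h₁ t) -
        ∫ t in (0 : ℝ)..z, (z - t) * (z - 3 * t) * h₂ t := by
      rw [← integral_sub h1 h2]
      refine integral_congr fun t _ => ?_
      ring
    rw [h4]; ring
  rw [e, abs_div, abs_of_pos (by norm_num : (0 : ℝ) < 3)]
  have h5 : |∫ t in (0 : ℝ)..z, (z - t) * (z - 3 * t) * (h₁ t - h₂ t)| ≤
      ∫ t in (0 : ℝ)..z, |(z - t) * (z - 3 * t) * (h₁ t - h₂ t)| := abs_integral_le_integral_abs hz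
  have h6 : (∫ t in (0 : ℝ)..z, |(z - t) * (z - 3 * t) * (h₁ t - h₂ t)|) ≤
      ∫ t in (0 : ℝ)..z, 2 * z ^ 2 * |h₁ t - h₂ t| := by
    refine integral_mono_on hz ?_ ?_ fun t ht => ?_
    · exact (hc.mul (hc₁.sub hc₂)).abs.intervalIntegrable _ _
    · exact (continuous_const.mul (hc₁.sub hc₂).abs).intervalIntegrable _ _
    · rw [abs_mul, abs_mul]
      refine mul_le_mul_of_nonneg_right ?_ (abs_nonneg _)
      have h7 : |z - t| ≤ z := by rw [abs_of_nonneg (by linarith [ht.2])]; linarith [ht.1]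
      have h8 : |z - 3 * t| ≤ 2 * z := by rw [abs_le]; constructor <;> linarith [ht.1, ht.2]
      calc |z - t| * |z - 3 * t| ≤ z * (2 * z) := mul_le_mul h7 h8 (abs_nonneg _) hz
        _ = 2 * z ^ 2 := by ring
  rw [intervalIntegral.integral_const_mul] at h6
  linarith

/-- the weight -/
noncomputable def om (z : ℝ) : ℝ := Real.exp (22 * max z 0 * (1 + max z 0) ^ 3)

lemma om_pos (z : ℝ) : 0 < om z := Real.exp_pos _

lemma continuous_om : Continuous om := by unfold om; fun_prop

lemma om_of_nonneg {z : ℝ} (hz : 0 ≤ z) : om z = Real.exp (22 * z * (1 + z) ^ 3) := by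
  rw [om, max_eq_left hz]

lemma int_om {z : ℝ} (hz : 0 ≤ z) : (∫ t in (0 : ℝ)..z, om t) ≤ om z / (22 * (1 + z) ^ 3) := by
  set lam : ℝ := 22 * (1 + z) ^ 3 with hlam
  have hl : 0 < lam := by positivity
  have h1 : (∫ t in (0 : ℝ)..z, om t) ≤ ∫ t in (0 : ℝ)..z, Real.exp (lam * t) := by
    refine integral_mono_on hz (continuous_om.intervalIntegrable _ _)
      ((by fun_prop : Continuous fun t => Real.exp (lam * t)).intervalIntegrable _ _) fun t ht => ?_
    rw [om_of_nonneg ht.1]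
    apply Real.exp_le_exp.2
    have h2 : (1 + t) ^ 3 ≤ (1 + z) ^ 3 := pow_le_pow_left₀ (by linarith [ht.1]) (by linarith [ht.2]) 3
    have h3 := mul_le_mul_of_nonneg_left h2 (by linarith [ht.1] : 0 ≤ 22 * t)
    rw [hlam]
    linarith
  have h2 : (∫ t in (0 : ℝ)..z, Real.exp (lam * t)) = (Real.exp (lam * z) - 1) / lam := by
    have h3 : ∀ t ∈ uIcc 0 z, HasDerivAt (fun t => Real.exp (lam * t) / lam)
        (Real.exp (lam * t)) t := by
      intro t _
      have h4 := (((hasDerivAt_id t).const_mul lam).exp).div_const lam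
      refine h4.congr_deriv ?_
      simp only [id, mul_one]
      rw [mul_div_assoc, div_self hl.ne', mul_one]
    rw [integral_eq_sub_of_hasDerivAt h3
      ((by fun_prop : Continuous fun t => Real.exp (lam * t)).intervalIntegrable _ _)]
    simp
    ring
  rw [h2] at h1
  refine h1.trans ?_
  rw [om_of_nonneg hz]
  have h5 : lam * z = 22 * z * (1 + z) ^ 3 := by rw [hlam]; ring
  rw [h5]
  gcongr
  linarith

/-- the lower barrier -/
noncomputable def B (z : ℝ) : ℝ := (z / (32 * (1 + z) ^ 2)) ^ 2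

lemma sqrt_est {x y b : ℝ} (hb : 0 < b) : |√(max x (b ^ 2)) - √(max y (b ^ 2))| ≤ |x - y| / (2 * b) := by
  set u := max x (b ^ 2)
  set v := max y (b ^ 2)
  have hu : b ^ 2 ≤ u := le_max_right _ _
  have hv : b ^ 2 ≤ v := le_max_right _ _
  have hu0 : 0 ≤ u := (sq_nonneg b).trans hu
  have hv0 : 0 ≤ v := (sq_nonneg b).trans hv
  have h1 : b ≤ √u := Real.le_sqrt_of_sq_le hu
  have h2 : b ≤ √v := Real.le_sqrt_of_sq_le hv
  have h3 : |u - v| ≤ |x - y| := by
    have := abs_max_sub_max_le_abs x y (b ^ 2)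
    exact this
  have h4 : u - v = (√u - √v) * (√u + √v) := by
    have := Real.sq_sqrt hu0
    have := Real.sq_sqrt hv0
    nlinarith
  rw [le_div_iff₀ (by positivity)]
  rw [h4, abs_mul] at h3
  refine le_trans ?_ h3
  refine mul_le_mul_of_nonneg_left ?_ (abs_nonneg _)
  rw [abs_of_nonneg (by positivity)]
  linarith

lemma est {h₁ h₂ : ℝ → ℝ} (hc₁ : Continuous h₁) (hc₂ : Continuous h₂) {D : ℝ} (hD : 0 ≤ D)
    (hle : ∀ t, 0 ≤ t → |h₁ t - h₂ t| ≤ D * om t) {z : ℝ} (hz : 0 ≤ z) :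
    |√(max (A a h₁ z) (B z)) - √(max (A a h₂ z) (B z))| ≤ 1 / 2 * D * om z := by
  rcases hz.eq_or_lt with h0 | h0
  · rw [← h0]
    simp only [A_zero, sub_self, abs_zero]
    have := om_pos 0
    positivity
  have hb : 0 < z / (32 * (1 + z) ^ 2) := by positivity
  refine (sqrt_est hb).trans ?_
  rw [div_le_iff₀ (by positivity)]
  refine (A_sub hc₁ hc₂ hz).trans ?_
  have h1 : (∫ t in (0 : ℝ)..z, |h₁ t - h₂ t|) ≤ D * (om z / (22 * (1 + z) ^ 3)) := by
    refine le_trans ?_ (mul_le_mul_of_nonneg_left (int_om hz) hD)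
    rw [← intervalIntegral.integral_const_mul]
    exact integral_mono_on hz ((hc₁.sub hc₂).abs.intervalIntegrable _ _)
      ((continuous_const.mul continuous_om).intervalIntegrable _ _) fun t ht => hle t ht.1
  refine (mul_le_mul_of_nonneg_left h1 (by positivity)).trans ?_
  have hom := om_pos z
  have h2 : 2 / 3 * z ^ 2 * (D * (om z / (22 * (1 + z) ^ 3))) =
      (D * om z * z / (1 + z) ^ 2) * (z / (33 * (1 + z))) := by
    field_simp
    ring
  have h3 : 1 / 2 * D * om z * (2 * (z / (32 * (1 + z) ^ 2))) =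
      (D * om z * z / (1 + z) ^ 2) * (1 / 32) := by
    field_simp
  rw [h2, h3]
  refine mul_le_mul_of_nonneg_left ?_ (by positivity)
  rw [div_le_div_iff₀ (by positivity) (by norm_num)]
  linarith

/-- the map whose fixed point gives the truncated equation -/
noncomputable def Fm (φ : ℝ → ℝ) (z : ℝ) : ℝ :=
  √(max (A 1 (fun t => om t * φ t) (max z 0)) (B (max z 0))) / om z

lemma om_max (z : ℝ) : om (max z 0) = om z := by
  unfold om
  rw [max_eq_left (le_max_right z 0)]

lemma continuous_B' : Continuous fun z : ℝ => B (max z 0) := by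
  unfold B
  refine Continuous.pow (Continuous.div (by fun_prop) (by fun_prop) fun z => ?_) 2
  have : 0 ≤ max z 0 := le_max_right _ _
  positivity

lemma continuous_Fm {φ : ℝ → ℝ} (hφ : Continuous φ) : Continuous (Fm φ) := by
  unfold Fm
  have h1 : Continuous (A 1 (fun t => om t * φ t)) := continuous_A (continuous_om.mul hφ)
  have h2 := continuous_B'
  exact (Real.continuous_sqrt.comp ((h1.comp (continuous_id.max continuous_const)).max h2)).div
    continuous_om fun z => (om_pos z).ne'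

lemma Fm_lip {φ ψ : ℝ → ℝ} (hφ : Continuous φ) (hψ : Continuous ψ) {D : ℝ} (hD : 0 ≤ D)
    (hle : ∀ t, |φ t - ψ t| ≤ D) (z : ℝ) : |Fm φ z - Fm ψ z| ≤ 1 / 2 * D := by
  unfold Fm
  have h1 := est (a := 1) (continuous_om.mul hφ) (continuous_om.mul hψ) hD (fun t _ => by
    change |om t * φ t - om t * ψ t| ≤ D * om t
    rw [← mul_sub, abs_mul, abs_of_pos (om_pos t), mul_comm]
    exact mul_le_mul_of_nonneg_right (hle t) (om_pos t).le) (le_max_right z 0)
  rw [← sub_div, abs_div, abs_of_pos (om_pos z), div_le_iff₀ (om_pos z)]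
  rw [om_max] at h1
  exact h1

lemma Fm_zero (z : ℝ) : |Fm 0 z| ≤ 1 := by
  unfold Fm
  set y := max z 0 with hy
  have hy0 : 0 ≤ y := le_max_right _ _
  have h1 : A 1 (fun t => om t * (0 : ℝ → ℝ) t) y = y ^ 2 := by
    unfold A H M1 M2
    simp
  rw [h1, abs_div, abs_of_pos (om_pos z), div_le_one (om_pos z), abs_of_nonneg (Real.sqrt_nonneg _)]
  have h2 : max (y ^ 2) (B y) = y ^ 2 := by
    refine max_eq_left ?_
    unfold B
    refine pow_le_pow_left₀ (by positivity) ?_ 2
    refine div_le_self hy0 ?_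
    nlinarith
  rw [h2, Real.sqrt_sq hy0, ← om_max, ← hy, om_of_nonneg hy0]
  have h3 := Real.add_one_le_exp (22 * y * (1 + y) ^ 3)
  have h4 : 1 ≤ (1 + y) ^ 3 := one_le_pow₀ (by linarith)
  have h5 : 22 * y * 1 ≤ 22 * y * (1 + y) ^ 3 := mul_le_mul_of_nonneg_left h4 (by positivity)
  linarith

open BoundedContinuousFunction in
/-- the solution of the truncated equation -/
theorem exists_trunc : ∃ h : ℝ → ℝ, Continuous h ∧
    ∀ z, 0 ≤ z → h z = √(max (A 1 h z) (B z)) := by
  let F : (ℝ →ᵇ ℝ) → (ℝ →ᵇ ℝ) := fun φ =>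
    BoundedContinuousFunction.ofNormedAddCommGroup (Fm φ) (continuous_Fm φ.continuous)
      (1 + 1 / 2 * ‖φ‖) (fun z => by
        have h1 := Fm_lip (ψ := 0) φ.continuous continuous_zero (norm_nonneg φ) (fun t => by
          simpa using φ.norm_coe_le_norm t) z
        have h2 := Fm_zero z
        have h3 : Fm φ z = (Fm φ z - Fm 0 z) + Fm 0 z := by ring
        rw [Real.norm_eq_abs, h3]
        refine (abs_add_le _ _).trans ?_
        linarith)
  have hF : ContractingWith (1 / 2) F := by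
    refine ⟨by rw [← NNReal.coe_lt_coe]; norm_num, LipschitzWith.of_dist_le_mul fun φ ψ => ?_⟩
    rw [BoundedContinuousFunction.dist_le (by positivity)]
    intro z
    have h1 := Fm_lip φ.continuous ψ.continuous (dist_nonneg (x := φ) (y := ψ)) (fun t => by
      have := BoundedContinuousFunction.dist_coe_le_dist (f := φ) (g := ψ) t
      rwa [Real.dist_eq] at this) z
    rw [Real.dist_eq]
    have h2 : ((1 / 2 : NNReal) : ℝ) = 1 / 2 := by norm_num
    rw [h2]
    exact h1
  have hfix := hF.fixedPoint_isFixedPt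
  set φ := ContractingWith.fixedPoint F hF with hφ
  refine ⟨fun t => om t * φ t, continuous_om.mul φ.continuous, fun z hz => ?_⟩
  have h1 : φ z = Fm φ z := by
    have h2 : F φ = φ := hfix
    conv_lhs => rw [← h2]
    rfl
  simp only
  rw [h1, Fm, max_eq_left hz, mul_div_cancel₀ _ (om_pos z).ne']

end Pool.Agent.Q64.SF
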