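import Pool.Agent.Q64.SF.Uniq

/-! # Existence and uniqueness of the profile -/

open Set Filter Topology MeasureTheory intervalIntegral
open scoped ContDiff

namespace Pool.Agent.Q64.SF

/-- smooth odd solutions with the limits `±1` -/
structure Prof (g : ℝ → ℝ) : Prop where
  smooth : ContDiff ℝ ∞ g
  odd : ∀ z, g (-z) = -g z
  ode : ∀ z, deriv (deriv fun y => g y * deriv g y) z = 1 / 3 * z * deriv g z
  bot : Tendsto g atBot (𝓝 1)
  top : Tendsto g atTop (𝓝 (-1))

theorem exists_prof : ∃ g, Prof g := by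
  obtain ⟨h, hc, hs⟩ := exists_trunc
  have G := good_of_trunc hc hs
  have hh0 : h 0 = 0 := by
    have := (G 0).sq 0 le_rfl le_rfl
    rw [A_zero] at this
    exact (pow_eq_zero_iff two_ne_zero).1 this
  have hE1 := (G 1).E_one le_rfl hh0 fun z h0 h1 => (near hc hs h0 h1).2.1
  obtain ⟨L, hL, hlim⟩ := exists_limit G hE1
  -- scaling
  set c : ℝ := L ^ ((1 : ℝ) / 3) with hcdef
  have hc0 : 0 < c := Real.rpow_pos_of_pos hL _
  have hc3 : c ^ 3 = L := by
    rw [hcdef, ← Real.rpow_natCast, ← Real.rpow_mul hL.le]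
    norm_num
  have hsm := contDiff_ho G
  have hlim2 : Tendsto (ho h) atTop (𝓝 L) := by
    refine hlim.congr' ?_
    filter_upwards [eventually_ge_atTop 0] with z hz
    exact (ho_eq G hz).symm
  have hd : ∀ z, deriv (fun z => -(c ^ 3)⁻¹ * ho h (c * z)) z = -(c ^ 2)⁻¹ * deriv (ho h) (c * z) := by
    intro z
    rw [deriv_const_mul_field, deriv_comp_mul_left, smul_eq_mul]
    field_simp
  have hprod : (fun y => -(c ^ 3)⁻¹ * ho h (c * y) * deriv (fun z => -(c ^ 3)⁻¹ * ho h (c * z)) y) =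
      fun y => (c ^ 5)⁻¹ * (fun x => ho h x * deriv (ho h) x) (c * y) := by
    funext y
    rw [hd]
    field_simp
  have htop : Tendsto (fun z => -(c ^ 3)⁻¹ * ho h (c * z)) atTop (𝓝 (-1)) := by
    have h1 := (hlim2.comp (tendsto_id.const_mul_atTop hc0)).const_mul (-(c ^ 3)⁻¹)
    have h2 : -(c ^ 3)⁻¹ * L = -1 := by rw [hc3, neg_mul, inv_mul_cancel₀ hL.ne']
    rw [h2] at h1
    exact h1
  have hodd : ∀ z, -(c ^ 3)⁻¹ * ho h (c * -z) = -(-(c ^ 3)⁻¹ * ho h (c * z)) := by
    intro z
    rw [mul_neg c z, ho_neg]; ring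
  refine ⟨fun z => -(c ^ 3)⁻¹ * ho h (c * z), ?_, hodd, ?_, ?_, htop⟩
  · exact contDiff_const.mul (hsm.comp (contDiff_const.mul contDiff_id))
  · intro z
    rw [hprod, hd]
    have h1 : deriv (fun y => (c ^ 5)⁻¹ * (fun x => ho h x * deriv (ho h) x) (c * y)) =
        fun y => (c ^ 4)⁻¹ * deriv (fun x => ho h x * deriv (ho h) x) (c * y) := by
      funext y
      rw [deriv_const_mul_field, deriv_comp_mul_left (f := fun x => ho h x * deriv (ho h) x),
        smul_eq_mul]
      field_simp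
    rw [h1, deriv_const_mul_field,
      deriv_comp_mul_left (f := deriv fun x => ho h x * deriv (ho h) x), smul_eq_mul, ode_ho G]
    field_simp
  · have h1 := htop.comp tendsto_neg_atBot_atTop
    have h2 := h1.neg
    rw [neg_neg] at h2
    refine h2.congr fun z => ?_
    simp only [Function.comp_apply]
    rw [hodd]; ring

/-- the integrated equations of a profile -/
lemma Prof.int {g : ℝ → ℝ} (G : Prof g) :
    (∀ z, (-g z) * deriv (fun z => -g z) z = P (deriv g 0) (fun z => -g z) z) ∧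
    ∀ z, (-g z) ^ 2 = A (deriv g 0) (fun z => -g z) z := by
  have hd : Differentiable ℝ g := G.smooth.differentiable (by simp)
  have hdc : ContDiff ℝ ∞ (deriv g) := G.smooth.deriv' 
  have hdd : Differentiable ℝ (deriv g) := hdc.differentiable (by simp)
  have hg0 : g 0 = 0 := by
    have := G.odd 0
    rw [neg_zero] at this
    linarith
  have hc : Continuous fun z => -g z := hd.continuous.neg
  have hdn : ∀ z, deriv (fun z => -g z) z = -deriv g z := fun z => deriv.fun_neg
  set p : ℝ → ℝ := fun y => g y * deriv g y with hp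
  have hpd : ∀ z, HasDerivAt p (deriv g z * deriv g z + g z * deriv (deriv g) z) z := fun z =>
    (hd z).hasDerivAt.mul (hdd z).hasDerivAt
  have hps : ContDiff ℝ ∞ p := G.smooth.mul hdc
  have hpsd : ContDiff ℝ ∞ (deriv p) := hps.deriv'
  have hpd2 : Differentiable ℝ (deriv p) := hpsd.differentiable (by simp)
  have h1 : ∀ z, deriv p z = K (deriv g 0) (fun z => -g z) z - z * (-g z) / 3 := by
    have h2 : ∀ z, HasDerivAt (fun z => deriv p z - (K (deriv g 0) (fun z => -g z) z -
        z * (-g z) / 3)) 0 z := by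
      intro z
      have h3 := (hpd2 z).hasDerivAt.sub ((hasDerivAt_K (a := deriv g 0) hc z).sub
        (((hasDerivAt_id z).mul ((hd z).hasDerivAt.neg)).div_const 3))
      refine h3.congr_deriv ?_
      rw [G.ode z]
      simp only [id, Pi.neg_apply]
      ring
    intro z
    have h4 := is_const_of_deriv_eq_zero (fun z => (h2 z).differentiableAt)
      (fun z => (h2 z).deriv) z 0
    simp only [K_zero, zero_mul, zero_div, sub_zero] at h4
    rw [(hpd 0).deriv, hg0] at h4
    linarith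
  have h2 : ∀ z, p z = P (deriv g 0) (fun z => -g z) z := by
    have h3 : ∀ z, HasDerivAt (fun z => p z - P (deriv g 0) (fun z => -g z) z) 0 z := by
      intro z
      have h4 := (hpd z).sub (hasDerivAt_P (a := deriv g 0) hc z)
      refine h4.congr_deriv ?_
      rw [← h1 z, (hpd z).deriv]
      ring
    intro z
    have h4 := is_const_of_deriv_eq_zero (fun z => (h3 z).differentiableAt)
      (fun z => (h3 z).deriv) z 0
    simp only [P_zero, hp, hg0, zero_mul, sub_zero] at h4
    simp only [hp]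
    linarith
  refine ⟨fun z => ?_, fun z => ?_⟩
  · rw [hdn, ← h2 z]
    simp only [hp]
    ring
  · have h3 : ∀ z, HasDerivAt (fun z => (-g z) ^ 2 - A (deriv g 0) (fun z => -g z) z) 0 z := by
      intro z
      have h4 := (((hd z).hasDerivAt.neg).pow 2).sub (hasDerivAt_A (a := deriv g 0) hc z)
      refine h4.congr_deriv ?_
      rw [← h2 z]
      simp only [hp, Pi.neg_apply]
      push_cast
      ring
    have h4 := is_const_of_deriv_eq_zero (fun z => (h3 z).differentiableAt)
      (fun z => (h3 z).deriv) z 0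
    simp only [A_zero, hg0] at h4
    linarith

lemma Prof.good {g : ℝ → ℝ} (G : Prof g) :
    deriv g 0 ≠ 0 ∧ ∀ Z, Good (deriv g 0) (fun z => -g z) Z := by
  have hd : Differentiable ℝ g := G.smooth.differentiable (by simp)
  have hg0 : g 0 = 0 := by
    have := G.odd 0
    rw [neg_zero] at this
    linarith
  obtain ⟨h1, h2⟩ := G.int
  refine good_of_profile hd.neg (by simp [hg0]) h1 h2 ?_
  have := G.top.neg
  rwa [neg_neg] at this

/-- scaling of the integrated equation -/
lemma Good.scale {a b c : ℝ} {h : ℝ → ℝ} (hc : 0 < c) (hab : a ^ 2 * c ^ 4 = b ^ 2)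
    (g : ∀ Z, Good b h Z) (Z : ℝ) : Good a (fun z => (c ^ 3)⁻¹ * h (c * z)) Z := by
  have hcont := (g 0).hc
  have e : ∀ (j : ℕ) (z : ℝ), (∫ t in (0 : ℝ)..z, t ^ j * ((c ^ 3)⁻¹ * h (c * t))) =
      (c ^ (j + 4))⁻¹ * ∫ t in (0 : ℝ)..(c * z), t ^ j * h t := by
    intro j z
    have h1 := mul_integral_comp_mul_left (a := 0) (b := z) (f := fun t => t ^ j * h t) c
    rw [mul_zero] at h1
    rw [← h1, ← mul_assoc, ← intervalIntegral.integral_const_mul]
    refine integral_congr fun t _ => ?_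
    rw [mul_pow]
    field_simp
    ring
  have eH : ∀ z, H (fun z => (c ^ 3)⁻¹ * h (c * z)) z = (c ^ 4)⁻¹ * H h (c * z) := by
    intro z
    have := e 0 z
    simpa [H] using this
  have eM1 : ∀ z, M1 (fun z => (c ^ 3)⁻¹ * h (c * z)) z = (c ^ 5)⁻¹ * M1 h (c * z) := by
    intro z
    have := e 1 z
    simpa [M1] using this
  have eM2 : ∀ z, M2 (fun z => (c ^ 3)⁻¹ * h (c * z)) z = (c ^ 6)⁻¹ * M2 h (c * z) := by
    intro z
    have := e 2 z
    simpa [M2] using this
  refine ⟨by fun_prop, fun z hz _ => ?_, fun z hz _ => ?_⟩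
  · have h1 := (g (c * z)).sq (c * z) (by positivity) le_rfl
    rw [mul_pow, h1]
    unfold A
    rw [eH, eM1, eM2, ← hab]
    field_simp
  · have h1 := (g (c * z)).pos (c * z) (by positivity) le_rfl
    positivity

theorem prof_unique {g₁ g₂ : ℝ → ℝ} (G₁ : Prof g₁) (G₂ : Prof g₂) : g₁ = g₂ := by
  obtain ⟨ha₁, hg₁⟩ := G₁.good
  obtain ⟨ha₂, hg₂⟩ := G₂.good
  set a := deriv g₁ 0
  set b := deriv g₂ 0
  set c : ℝ := √(|b| / |a|) with hcd
  have hc0 : 0 < c := Real.sqrt_pos.2 (by positivity)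
  have hc2 : c ^ 2 = |b| / |a| := Real.sq_sqrt (by positivity)
  have hab : a ^ 2 * c ^ 4 = b ^ 2 := by
    have h1 : c ^ 4 = (|b| / |a|) ^ 2 := by rw [← hc2]; ring
    rw [h1, div_pow, sq_abs, sq_abs]
    field_simp
  have hsc := Good.scale hc0 hab hg₂
  have heq : ∀ z, 0 ≤ z → -g₁ z = (c ^ 3)⁻¹ * -g₂ (c * z) := fun z hz => unique ha₁ hg₁ hsc hz
  -- the limits
  have hlim : (1 : ℝ) = (c ^ 3)⁻¹ * 1 := by
    have h1 : Tendsto (fun z => -g₁ z) atTop (𝓝 1) := by
      have := G₁.top.neg
      rwa [neg_neg] at this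
    have h2 : Tendsto (fun z => (c ^ 3)⁻¹ * -g₂ (c * z)) atTop (𝓝 ((c ^ 3)⁻¹ * 1)) := by
      have := G₂.top.neg
      rw [neg_neg] at this
      exact (this.comp (tendsto_id.const_mul_atTop hc0)).const_mul _
    refine tendsto_nhds_unique h1 (h2.congr' ?_)
    filter_upwards [eventually_ge_atTop 0] with z hz
    exact (heq z hz).symm
  have hc3 : c ^ 3 = 1 := by
    rw [mul_one] at hlim
    exact (inv_eq_one.1 hlim.symm)
  have hc1 : c = 1 := (pow_eq_one_iff_of_nonneg hc0.le three_ne_zero).1 hc3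
  have heq2 : ∀ z, 0 ≤ z → g₁ z = g₂ z := by
    intro z hz
    have := heq z hz
    rw [hc1] at this
    simpa using this
  funext z
  rcases le_total 0 z with hz | hz
  · exact heq2 z hz
  · have h1 := heq2 (-z) (by linarith)
    rw [G₁.odd, G₂.odd] at h1
    linarith

end Pool.Agent.Q64.SF
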