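import Pool.Agent.Q64.SF.Asym

/-! # Smoothness at the origin -/

open Set Filter Topology MeasureTheory intervalIntegral
open scoped ContDiff

namespace Pool.Agent.Q64.SF

/-- averages -/
noncomputable def T (j : ℕ) (f : ℝ → ℝ) (z : ℝ) : ℝ := ∫ s in (0 : ℝ)..1, s ^ j * f (z * s)

lemma continuous_T (j : ℕ) {f : ℝ → ℝ} (hf : Continuous f) : Continuous (T j f) := by
  apply continuous_parametric_intervalIntegral_of_continuous'
  fun_prop

lemma hasDerivAt_T (j : ℕ) {f : ℝ → ℝ} (hf : ContDiff ℝ 1 f) (z : ℝ) :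
    HasDerivAt (T j f) (T (j + 1) (deriv f) z) z := by
  have hfc : Continuous f := hf.continuous
  have hfd : Differentiable ℝ f := hf.differentiable (by norm_num)
  have hdc : Continuous (deriv f) := hf.continuous_deriv (by norm_num)
  obtain ⟨C, hC⟩ := (isCompact_closedBall (0 : ℝ) (|z| + 1)).exists_bound_of_continuousOn
    hdc.continuousOn
  have h := hasDerivAt_integral_of_dominated_loc_of_deriv_le (μ := volume) (a := 0) (b := 1)
    (F := fun x s => s ^ j * f (x * s)) (F' := fun x s => s ^ (j + 1) * deriv f (x * s))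
    (x₀ := z) (s := Metric.ball z 1) (bound := fun _ => C) (Metric.ball_mem_nhds z one_pos)
    (Eventually.of_forall fun x => (by fun_prop :
      Continuous fun s : ℝ => s ^ j * f (x * s)).aestronglyMeasurable)
    ((by fun_prop : Continuous fun s : ℝ => s ^ j * f (z * s)).intervalIntegrable _ _)
    (by fun_prop : Continuous fun s : ℝ => s ^ (j + 1) * deriv f (z * s)).aestronglyMeasurable
    (Eventually.of_forall fun s hs x hx => by
      rw [uIoc_of_le zero_le_one] at hs
      have h1 : |x| ≤ |z| + 1 := by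
        rw [Metric.mem_ball, Real.dist_eq] at hx
        have := abs_sub_abs_le_abs_sub x z
        linarith
      have h2 : ‖deriv f (x * s)‖ ≤ C := by
        refine hC _ ?_
        rw [Metric.mem_closedBall, dist_zero_right, Real.norm_eq_abs, abs_mul, abs_of_pos hs.1]
        calc |x| * s ≤ |x| * 1 := mul_le_mul_of_nonneg_left hs.2 (abs_nonneg _)
          _ ≤ |z| + 1 := by rw [mul_one]; exact h1
      have h3 : ‖s ^ (j + 1)‖ ≤ 1 := by
        rw [norm_pow, Real.norm_eq_abs, abs_of_pos hs.1]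
        exact pow_le_one₀ hs.1.le hs.2
      rw [norm_mul]
      calc ‖s ^ (j + 1)‖ * ‖deriv f (x * s)‖ ≤ 1 * C :=
            mul_le_mul h3 h2 (norm_nonneg _) zero_le_one
        _ = C := one_mul C)
    (by simp)
    (Eventually.of_forall fun s _ x _ => by
      have h1 : HasDerivAt (fun x => f (x * s)) (deriv f (x * s) * s) x := by
        have h2 := (hfd (x * s)).hasDerivAt.comp x ((hasDerivAt_id x).mul_const s)
        exact h2.congr_deriv (by rw [one_mul])
      refine (h1.const_mul (s ^ j)).congr_deriv ?_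
      ring)
  exact h.2

lemma contDiff_T (n : ℕ) : ∀ (j : ℕ) (f : ℝ → ℝ), ContDiff ℝ n f → ContDiff ℝ n (T j f) := by
  induction n with
  | zero =>
    intro j f hf
    have h1 : Continuous f := hf.continuous
    exact contDiff_zero.2 (continuous_T j h1)
  | succ n ih =>
    intro j f hf
    have hf1 : ContDiff ℝ 1 f := hf.of_le (by norm_cast; omega)
    have hd : deriv (T j f) = T (j + 1) (deriv f) := funext fun z => (hasDerivAt_T j hf1 z).deriv
    have h1 : ContDiff ℝ ((n : WithTop ℕ∞) + 1) f := by exact_mod_cast hf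
    have h2 := (contDiff_succ_iff_deriv.1 h1).2.2
    have h3 : ContDiff ℝ ((n : WithTop ℕ∞) + 1) (T j f) := by
      refine contDiff_succ_iff_deriv.2 ⟨fun z => (hasDerivAt_T j hf1 z).differentiableAt,
        fun h => absurd h (by simp), ?_⟩
      rw [hd]
      exact ih (j + 1) _ h2
    exact_mod_cast h3

lemma T_const_zero (j : ℕ) (f : ℝ → ℝ) : T j f 0 = f 0 / (j + 1) := by
  unfold T
  simp only [zero_mul]
  rw [intervalIntegral.integral_mul_const, integral_pow]
  simp
  ring

/-- `z ^ (j + 1) * T j f z = ∫₀ᶻ t ^ j f t` -/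
lemma pow_mul_T (j : ℕ) (f : ℝ → ℝ) (z : ℝ) :
    z ^ (j + 1) * T j f z = ∫ t in (0 : ℝ)..z, t ^ j * f t := by
  have h1 := mul_integral_comp_mul_left (a := 0) (b := 1) (f := fun t => t ^ j * f t) z
  rw [mul_zero, mul_one] at h1
  rw [← h1, T, pow_succ, mul_comm (z ^ j), mul_assoc, ← intervalIntegral.integral_const_mul (z ^ j)]
  congr 1
  refine integral_congr fun t _ => ?_
  ring

lemma hasDerivAt_S (j : ℕ) {f : ℝ → ℝ} (hf : Continuous f) (z : ℝ) :
    HasDerivAt (fun z => z * T j f z) (f z - j * T j f z) z := by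
  have hT := continuous_T j hf
  refine hasDerivAt_of_hasDerivAt_of_ne' (x := 0) (g := fun z => f z - j * T j f z) ?_
    (by fun_prop) (by fun_prop) z
  intro y hy
  have h1 : Continuous fun t => t ^ j * f t := by fun_prop
  have h2 : HasDerivAt (fun z => ∫ t in (0 : ℝ)..z, t ^ j * f t) (y ^ j * f y) y :=
    integral_hasDerivAt_right (h1.intervalIntegrable _ _) (h1.stronglyMeasurableAtFilter _ _)
      h1.continuousAt
  have h3 := h2.div (hasDerivAt_pow j y) (pow_ne_zero j hy)
  have h4 : (fun z => z * T j f z) =ᶠ[𝓝 y]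
      fun z => (∫ t in (0 : ℝ)..z, t ^ j * f t) / z ^ j := by
    filter_upwards [isOpen_ne.mem_nhds hy] with x hx
    rw [← pow_mul_T, pow_succ, eq_div_iff (pow_ne_zero j hx)]
    ring
  refine (h3.congr_of_eventuallyEq h4).congr_deriv ?_
  rw [← pow_mul_T]
  rcases j with _ | j
  · simp
  · rw [Nat.add_sub_cancel]
    field_simp
    ring

lemma contDiff_S (n : ℕ) (j : ℕ) {f : ℝ → ℝ} (hf : ContDiff ℝ n f) :
    ContDiff ℝ (n + 1 : ℕ) (fun z => z * T j f z) := by
  have hc : Continuous f := hf.continuous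
  have hd : deriv (fun z => z * T j f z) = fun z => f z - j * T j f z :=
    funext fun z => (hasDerivAt_S j hc z).deriv
  have h3 : ContDiff ℝ ((n : WithTop ℕ∞) + 1) (fun z => z * T j f z) := by
    refine contDiff_succ_iff_deriv.2 ⟨fun z => (hasDerivAt_S j hc z).differentiableAt,
      fun h => absurd h (by simp), ?_⟩
    rw [hd]
    exact hf.sub (contDiff_const.mul (contDiff_T n j f hf))
  exact_mod_cast h3

/-- bootstrapping -/
theorem contDiff_w {w : ℝ → ℝ} (hc : Continuous w) (hpos : ∀ z, 0 < w z)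
    (hw : ∀ z, w z ^ 2 = 1 + z ^ 2 / 3 * (T 1 w z - 4 * T 2 w z + 3 * T 3 w z)) :
    ContDiff ℝ ∞ w := by
  refine contDiff_infty.2 fun n => ?_
  induction n with
  | zero => exact contDiff_zero.2 hc
  | succ n ih =>
    have h1 := contDiff_S n 1 ih
    have h2 := contDiff_S n 2 ih
    have h3 := contDiff_S n 3 ih
    have h4 : w = fun z => √(1 + z / 3 * (z * T 1 w z - 4 * (z * T 2 w z) + 3 * (z * T 3 w z))) := by
      funext z
      rw [eq_comm, Real.sqrt_eq_iff_eq_sq (by
        have := hw z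
        have h5 : 0 ≤ w z ^ 2 := sq_nonneg _
        rw [this] at h5
        refine h5.trans (le_of_eq ?_)
        ring) (hpos z).le, hw z]
      ring
    rw [h4]
    refine ContDiff.sqrt ?_ fun z => ?_
    · exact contDiff_const.add ((contDiff_id.div_const 3).mul
        ((h1.sub (contDiff_const.mul h2)).add (contDiff_const.mul h3)))
    · have h5 : 1 + z / 3 * (z * T 1 w z - 4 * (z * T 2 w z) + 3 * (z * T 3 w z)) = w z ^ 2 := by
        rw [hw z]; ring
      rw [h5]
      exact (pow_pos (hpos z) 2).ne'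

/-- the even function `h |z| / |z|` -/
noncomputable def ww (h : ℝ → ℝ) (z : ℝ) : ℝ := if z = 0 then 1 else h |z| / |z|

variable {h : ℝ → ℝ}

lemma ww_neg (z : ℝ) : ww h (-z) = ww h z := by
  unfold ww
  simp only [neg_eq_zero, abs_neg]

lemma ww_pos (g : ∀ Z, Good 1 h Z) (z : ℝ) : 0 < ww h z := by
  unfold ww
  split_ifs with h0
  · exact one_pos
  · have : 0 < |z| := abs_pos.2 h0
    exact div_pos ((g |z|).pos _ this le_rfl) this

lemma mul_ww (g : ∀ Z, Good 1 h Z) {z : ℝ} (hz : 0 ≤ z) : z * ww h z = h z := by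
  unfold ww
  split_ifs with h0
  · subst h0
    have := (g 0).sq 0 le_rfl le_rfl
    rw [A_zero] at this
    rw [zero_mul]
    exact (pow_eq_zero_iff (two_ne_zero)).1 this |>.symm
  · rw [abs_of_nonneg hz, mul_div_cancel₀ _ h0]

lemma continuous_ww (g : ∀ Z, Good 1 h Z) : Continuous (ww h) := by
  have hc := (g 0).hc
  rw [continuous_iff_continuousAt]
  intro z
  by_cases h0 : z = 0
  · subst h0
    -- near the origin
    have h1 : ∀ z, |ww h z ^ 2 - 1| ≤ 2 / 3 * ∫ t in (0 : ℝ)..|z|, |h t| := by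
      intro z
      by_cases hz : z = 0
      · subst hz; simp [ww]
      · have hz' : 0 < |z| := abs_pos.2 hz
        have h2 : ww h z ^ 2 = A 1 h |z| / |z| ^ 2 := by
          rw [ww, if_neg hz, div_pow, (g |z|).sq _ hz'.le le_rfl]
        have h3 := A_bound (a := 1) hc hz'.le
        have h4 : ww h z ^ 2 - 1 = (A 1 h |z| - 1 ^ 2 * |z| ^ 2) / |z| ^ 2 := by
          rw [h2]; field_simp
        rw [h4, abs_div, abs_of_pos (by positivity : 0 < |z| ^ 2), div_le_iff₀ (by positivity)]
        refine h3.trans (le_of_eq ?_)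
        ring
    have h2 : Tendsto (fun z : ℝ => 2 / 3 * ∫ t in (0 : ℝ)..|z|, |h t|) (𝓝 0) (𝓝 0) := by
      have h3 : Continuous fun z : ℝ => 2 / 3 * ∫ t in (0 : ℝ)..|z|, |h t| := by
        have h4 : Continuous fun x : ℝ => ∫ t in (0 : ℝ)..x, |h t| :=
          continuous_primitive (fun a b => hc.abs.intervalIntegrable a b) 0
        exact continuous_const.mul (h4.comp continuous_abs)
      have := h3.tendsto 0
      simpa using this
    have h3 : Tendsto (fun z => ww h z ^ 2) (𝓝 0) (𝓝 1) := by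
      rw [tendsto_iff_norm_sub_tendsto_zero]
      exact squeeze_zero (fun z => norm_nonneg _) (fun z => h1 z) h2
    have h4 : ww h = fun z => √(ww h z ^ 2) := funext fun z => (Real.sqrt_sq (ww_pos g z).le).symm
    have h5 : ww h 0 = 1 := by simp [ww]
    rw [ContinuousAt, h5, h4]
    have := (Real.continuous_sqrt.tendsto 1).comp h3
    rwa [Real.sqrt_one] at this
  · have h1 : ContinuousAt (fun z => h |z| / |z|) z :=
      (hc.comp continuous_abs).continuousAt.div continuous_abs.continuousAt (abs_ne_zero.2 h0)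
    refine h1.congr ?_
    filter_upwards [isOpen_ne.mem_nhds h0] with x hx
    rw [ww, if_neg hx]

/-- the odd extension -/
noncomputable def ho (h : ℝ → ℝ) (z : ℝ) : ℝ := z * ww h z

lemma continuous_ho (g : ∀ Z, Good 1 h Z) : Continuous (ho h) :=
  continuous_id.mul (continuous_ww g)

lemma ho_neg (z : ℝ) : ho h (-z) = -ho h z := by
  unfold ho; rw [ww_neg]; ring

lemma ho_eq (g : ∀ Z, Good 1 h Z) {z : ℝ} (hz : 0 ≤ z) : ho h z = h z := mul_ww g hz

lemma T_even (j : ℕ) (z : ℝ) : T j (ww h) (-z) = T j (ww h) z := by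
  unfold T
  refine integral_congr fun s _ => ?_
  rw [neg_mul, ww_neg]

lemma A_ho (z : ℝ) : A 1 (ho h) z =
    z ^ 2 + z ^ 4 / 3 * (T 1 (ww h) z - 4 * T 2 (ww h) z + 3 * T 3 (ww h) z) := by
  have h1 : H (ho h) z = z ^ 2 * T 1 (ww h) z := by
    rw [pow_mul_T]
    unfold H ho
    refine integral_congr fun t _ => ?_
    simp
  have h2 : M1 (ho h) z = z ^ 3 * T 2 (ww h) z := by
    rw [pow_mul_T]
    unfold M1 ho
    refine integral_congr fun t _ => ?_
    ring
  have h3 : M2 (ho h) z = z ^ 4 * T 3 (ww h) z := by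
    rw [pow_mul_T]
    unfold M2 ho
    refine integral_congr fun t _ => ?_
    ring
  unfold A
  rw [h1, h2, h3]
  ring

lemma A_congr {a : ℝ} {h₁ h₂ : ℝ → ℝ} {z : ℝ} (hz : 0 ≤ z) (he : ∀ t, 0 ≤ t → h₁ t = h₂ t) :
    A a h₁ z = A a h₂ z := by
  have e : ∀ f : ℝ → ℝ → ℝ, (∫ t in (0 : ℝ)..z, f t (h₁ t)) = ∫ t in (0 : ℝ)..z, f t (h₂ t) := by
    intro f
    refine integral_congr fun t ht => ?_
    rw [uIcc_of_le hz] at ht
    rw [he t ht.1]
  unfold A H M1 M2
  rw [e fun _ y => y, e fun t y => t * y, e fun t y => t ^ 2 * y]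

lemma ho_sq (g : ∀ Z, Good 1 h Z) (z : ℝ) : ho h z ^ 2 = A 1 (ho h) z := by
  have key : ∀ z, 0 ≤ z → ho h z ^ 2 = A 1 (ho h) z := by
    intro z hz
    rw [ho_eq g hz, (g z).sq z hz le_rfl]
    exact (A_congr hz fun t ht => ho_eq g ht).symm
  rcases le_total 0 z with hz | hz
  · exact key z hz
  · have h1 := key (-z) (by linarith)
    rw [ho_neg, A_ho, T_even, T_even, T_even] at h1
    rw [A_ho, ← neg_sq, h1]
    ring

lemma ww_sq (g : ∀ Z, Good 1 h Z) (z : ℝ) :
    ww h z ^ 2 = 1 + z ^ 2 / 3 * (T 1 (ww h) z - 4 * T 2 (ww h) z + 3 * T 3 (ww h) z) := by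
  by_cases h0 : z = 0
  · subst h0; simp [ww]
  · have h1 := ho_sq g z
    rw [A_ho, ho, mul_pow] at h1
    have h2 : z ^ 2 ≠ 0 := pow_ne_zero 2 h0
    apply mul_left_cancel₀ h2
    rw [h1]
    ring

theorem contDiff_ho (g : ∀ Z, Good 1 h Z) : ContDiff ℝ ∞ (ho h) :=
  contDiff_id.mul (contDiff_w (continuous_ww g) (ww_pos g) (ww_sq g))

theorem ode_ho (g : ∀ Z, Good 1 h Z) (z : ℝ) :
    deriv (deriv fun y => ho h y * deriv (ho h) y) z = -(z / 3) * deriv (ho h) z := by
  have hc := continuous_ho g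
  have hd : Differentiable ℝ (ho h) := (contDiff_ho g).differentiable (by simp)
  have h1 : (fun y => ho h y * deriv (ho h) y) = P 1 (ho h) := by
    funext y
    have h2 : HasDerivAt (fun y => ho h y ^ 2) (2 * ho h y * deriv (ho h) y) y := by
      refine ((hd y).hasDerivAt.pow 2).congr_deriv ?_
      push_cast
      ring
    have h3 : HasDerivAt (fun y => ho h y ^ 2) (2 * P 1 (ho h) y) y := by
      rw [show (fun y => ho h y ^ 2) = A 1 (ho h) from funext fun y => ho_sq g y]
      exact hasDerivAt_A hc y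
    have h4 := h2.unique h3
    linarith
  have h2 : deriv (P 1 (ho h)) = fun y => K 1 (ho h) y - y * ho h y / 3 :=
    funext fun y => (hasDerivAt_P hc y).deriv
  rw [h1, h2]
  have h3 := (hasDerivAt_K (a := 1) hc z).sub
    (((hasDerivAt_id z).mul (hd z).hasDerivAt).div_const 3)
  have h4 : HasDerivAt (fun y => K 1 (ho h) y - y * ho h y / 3) (-(z / 3) * deriv (ho h) z) z := by
    refine h3.congr_deriv ?_
    simp only [id]
    ring
  exact h4.deriv

end Pool.Agent.Q64.SF
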