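import Pool.Agent.Q64.SF.Smooth

/-! # Uniqueness -/

open Set Filter Topology MeasureTheory intervalIntegral
open scoped ContDiff

namespace Pool.Agent.Q64.SF

variable {a : ℝ} {h : ℝ → ℝ}

/-- lower bound `c z ≤ h z` -/
lemma lower (g : ∀ Z, Good a h Z) (ha : a ≠ 0) {Z : ℝ} (hZ : 0 < Z) :
    ∃ c : ℝ, 0 < c ∧ ∀ z, 0 ≤ z → z ≤ Z → c * z ≤ h z := by
  have hc := (g 0).hc
  have hh0 : h 0 = 0 := by
    have := (g 0).sq 0 le_rfl le_rfl
    rw [A_zero] at this
    exact (pow_eq_zero_iff two_ne_zero).1 this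
  have hpos : ∀ z, 0 < z → 0 < h z := fun z hz => (g z).pos z hz le_rfl
  have ha2 : 0 < a ^ 2 := by positivity
  have h1 : Tendsto (fun z : ℝ => 2 / 3 * ∫ t in (0 : ℝ)..z, |h t|) (𝓝 0) (𝓝 0) := by
    have h3 : Continuous fun z : ℝ => 2 / 3 * ∫ t in (0 : ℝ)..z, |h t| :=
      continuous_const.mul (continuous_primitive (fun a b => hc.abs.intervalIntegrable a b) 0)
    have := h3.tendsto 0
    simpa using this
  have h2 := h1.eventually (gt_mem_nhds (by positivity : (0 : ℝ) < a ^ 2 / 2))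
  obtain ⟨δ, hδ, hball⟩ := Metric.eventually_nhds_iff.1 h2
  set δ' := min (δ / 2) Z with hδ'
  have hδ'0 : 0 < δ' := lt_min (by positivity) hZ
  have hsmall : ∀ z, 0 ≤ z → z ≤ δ' → |a| / 2 * z ≤ h z := by
    intro z h0 hz
    have h3 : (2 / 3 * ∫ t in (0 : ℝ)..z, |h t|) < a ^ 2 / 2 := hball (by
      rw [Real.dist_eq, sub_zero, abs_of_nonneg h0]
      have := hz.trans (min_le_left _ _)
      linarith)
    have h4 := (abs_le.1 (A_bound (a := a) hc h0)).1
    rw [← (g z).sq z h0 le_rfl] at h4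
    have h5 : (|a| / 2 * z) ^ 2 ≤ h z ^ 2 := by
      rw [mul_pow, div_pow, sq_abs]
      have h6 : 2 / 3 * z ^ 2 * (∫ t in (0 : ℝ)..z, |h t|) ≤ z ^ 2 * (a ^ 2 / 2) := by
        have := mul_le_mul_of_nonneg_left h3.le (sq_nonneg z)
        linarith
      nlinarith [mul_nonneg ha2.le (sq_nonneg z)]
    have h7 : 0 ≤ h z := by
      rcases h0.eq_or_lt with h | h
      · rw [← h, hh0]
      · exact (hpos z h).le
    exact le_of_sq_le_sq h5 h7
  obtain ⟨x₀, hx₀, hmin⟩ := (isCompact_Icc (a := δ') (b := Z)).exists_isMinOn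
    (nonempty_Icc.2 (min_le_right _ _)) hc.continuousOn
  have hm : 0 < h x₀ := hpos x₀ (hδ'0.trans_le hx₀.1)
  refine ⟨min (|a| / 2) (h x₀ / Z), lt_min (by positivity) (by positivity), fun z h0 hz => ?_⟩
  rcases le_total z δ' with h3 | h3
  · exact (mul_le_mul_of_nonneg_right (min_le_left _ _) h0).trans (hsmall z h0 h3)
  · refine (mul_le_mul_of_nonneg_right (min_le_right _ _) h0).trans ?_
    refine le_trans ?_ (hmin ⟨h3, hz⟩)
    rw [div_mul_eq_mul_div, div_le_iff₀ hZ]
    exact mul_le_mul_of_nonneg_left hz hm.le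

/-- uniqueness of positive solutions of the integrated equation -/
theorem unique {h₁ h₂ : ℝ → ℝ} (ha : a ≠ 0) (g₁ : ∀ Z, Good a h₁ Z) (g₂ : ∀ Z, Good a h₂ Z) {z : ℝ}
    (hz : 0 ≤ z) : h₁ z = h₂ z := by
  have hc₁ := (g₁ 0).hc
  have hc₂ := (g₂ 0).hc
  set Z := z + 1 with hZ
  have hZ0 : 0 < Z := by positivity
  obtain ⟨c, hc0, hc⟩ := lower g₁ ha hZ0
  have hz0 : ∀ {h : ℝ → ℝ}, (∀ Z, Good a h Z) → h 0 = 0 := by
    intro h g
    have := (g 0).sq 0 le_rfl le_rfl
    rw [A_zero] at this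
    exact (pow_eq_zero_iff two_ne_zero).1 this
  set D : ℝ → ℝ := fun t => |h₁ t - h₂ t| with hD
  have hDc : Continuous D := (hc₁.sub hc₂).abs
  set C := 2 / 3 * Z / c with hC
  have hC0 : 0 ≤ C := by positivity
  have hle : ∀ t, 0 ≤ t → t ≤ Z → D t ≤ C * ∫ s in (0 : ℝ)..t, D s := by
    intro t ht htZ
    have hint : 0 ≤ ∫ s in (0 : ℝ)..t, D s := integral_nonneg ht fun s _ => abs_nonneg _
    rcases ht.eq_or_lt with h0 | h0
    · rw [← h0]
      simp [hD, hz0 g₁, hz0 g₂]
    · have h1 := A_sub (a := a) hc₁ hc₂ ht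
      rw [← (g₁ t).sq t ht le_rfl, ← (g₂ t).sq t ht le_rfl] at h1
      have h2 : |h₁ t ^ 2 - h₂ t ^ 2| = D t * (h₁ t + h₂ t) := by
        rw [sq_sub_sq, abs_mul, mul_comm, abs_of_pos (add_pos ((g₁ t).pos t h0 le_rfl)
          ((g₂ t).pos t h0 le_rfl))]
      have h3 : D t * (c * t) ≤ D t * (h₁ t + h₂ t) :=
        mul_le_mul_of_nonneg_left (by
          have := hc t ht htZ
          have := (g₂ t).pos t h0 le_rfl
          linarith) (abs_nonneg _)
      rw [h2] at h1
      have h4 : D t * (c * t) ≤ 2 / 3 * t ^ 2 * ∫ s in (0 : ℝ)..t, D s := h3.trans h1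
      have h5 : D t ≤ (2 / 3 * t / c) * ∫ s in (0 : ℝ)..t, D s := by
        rw [div_mul_eq_mul_div, le_div_iff₀ hc0]
        have h6 : D t * c * t ≤ (2 / 3 * t * ∫ s in (0 : ℝ)..t, D s) * t := by
          calc D t * c * t = D t * (c * t) := by ring
            _ ≤ _ := h4
            _ = _ := by ring
        exact le_of_mul_le_mul_right h6 h0
      refine h5.trans (mul_le_mul_of_nonneg_right ?_ hint)
      rw [hC]
      gcongr
  -- Gronwall
  have hanti : AntitoneOn (fun t => Real.exp (-(C * t)) * ∫ s in (0 : ℝ)..t, D s) (Icc 0 Z) := by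
    have hd : ∀ t, HasDerivAt (fun t => Real.exp (-(C * t)) * ∫ s in (0 : ℝ)..t, D s)
        (Real.exp (-(C * t)) * (D t - C * ∫ s in (0 : ℝ)..t, D s)) t := by
      intro t
      have h1 : HasDerivAt (fun t => ∫ s in (0 : ℝ)..t, D s) (D t) t :=
        integral_hasDerivAt_right (hDc.intervalIntegrable _ _)
          (hDc.stronglyMeasurableAtFilter _ _) hDc.continuousAt
      have h2 := (((hasDerivAt_id t).const_mul C).neg.exp).mul h1
      refine h2.congr_deriv ?_
      simp only [id, Pi.neg_apply]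
      ring
    refine antitoneOn_of_deriv_nonpos (convex_Icc _ _)
      (fun t _ => (hd t).continuousAt.continuousWithinAt)
      (fun t _ => (hd t).differentiableAt.differentiableWithinAt) fun t ht => ?_
    rw [interior_Icc] at ht
    rw [(hd t).deriv]
    exact mul_nonpos_of_nonneg_of_nonpos (Real.exp_pos _).le
      (by linarith [hle t ht.1.le ht.2.le])
  have h1 := hanti (left_mem_Icc.2 hZ0.le) ⟨hz, by linarith⟩ hz
  simp only [integral_same, mul_zero] at h1
  have h2 : (∫ s in (0 : ℝ)..z, D s) ≤ 0 := by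
    by_contra hcon
    push Not at hcon
    have := mul_pos (Real.exp_pos (-(C * z))) hcon
    linarith
  have h3 := hle z hz (by linarith)
  have h4 : D z ≤ 0 := h3.trans (mul_nonpos_of_nonneg_of_nonpos hC0 h2)
  have h5 : |h₁ z - h₂ z| = 0 := le_antisymm h4 (abs_nonneg _)
  exact sub_eq_zero.1 (abs_eq_zero.1 h5)

lemma P_eq (hc : Continuous h) (z : ℝ) :
    P a h z = a ^ 2 * z + (∫ t in (0 : ℝ)..z, (z - 2 * t) * h t) / 3 := by
  have h0 : IntervalIntegrable h volume 0 z := hc.intervalIntegrable _ _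
  have h1 : IntervalIntegrable (fun t => t * h t) volume 0 z :=
    (continuous_id.mul hc).intervalIntegrable _ _
  have h3 : (∫ t in (0 : ℝ)..z, (z - 2 * t) * h t) = z * H h z - 2 * M1 h z := by
    unfold H M1
    rw [← intervalIntegral.integral_const_mul, ← intervalIntegral.integral_const_mul,
      ← integral_sub (h0.const_mul _) (h1.const_mul _)]
    refine integral_congr fun t _ => ?_
    ring
  rw [h3, P]

/-- a maximal interval of negativity -/
lemma neg_interval (hc : Continuous h) {x y : ℝ} (h0 : 0 ≤ h 0) (hx0 : 0 < x) (hx : h x < 0)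
    (hxy : x < y) (hy : 0 < h y) : ∃ u v : ℝ, 0 ≤ u ∧ u < v ∧ h u = 0 ∧ h v = 0 ∧
      ∀ t, u < t → t < v → h t < 0 := by
  set S : Set ℝ := Icc 0 x ∩ h ⁻¹' Ici 0 with hS
  set R : Set ℝ := Icc x y ∩ h ⁻¹' Ici 0 with hR
  have hSc : IsCompact S := isCompact_Icc.inter_right (isClosed_Ici.preimage hc)
  have hRc : IsCompact R := isCompact_Icc.inter_right (isClosed_Ici.preimage hc)
  obtain ⟨u, huS, hu⟩ := hSc.exists_isGreatest ⟨0, ⟨le_rfl, hx0.le⟩, h0⟩
  obtain ⟨v, hvR, hv⟩ := hRc.exists_isLeast ⟨y, ⟨hxy.le, le_rfl⟩, hy.le⟩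
  have hux : u < x := lt_of_le_of_ne huS.1.2 fun h1 => by
    have := huS.2
    rw [h1] at this
    exact absurd (mem_preimage.1 this) (by simpa using hx)
  have hxv : x < v := lt_of_le_of_ne hvR.1.1 fun h1 => by
    have := hvR.2
    rw [← h1] at this
    exact absurd (mem_preimage.1 this) (by simpa using hx)
  have hneg : ∀ t, u < t → t < v → h t < 0 := by
    intro t ht1 ht2
    by_contra hcon
    push Not at hcon
    rcases le_total t x with h1 | h1
    · exact absurd (hu ⟨⟨huS.1.1.trans ht1.le, h1⟩, hcon⟩) (not_le.2 ht1)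
    · exact absurd (hv ⟨⟨h1, ht2.le.trans hvR.1.2⟩, hcon⟩) (not_le.2 ht2)
  have huv : u < v := hux.trans hxv
  have hcl : ∀ t ∈ Icc u v, h t ≤ 0 := by
    have h1 : Ioo u v ⊆ {t | h t ≤ 0} := fun t ht => (hneg t ht.1 ht.2).le
    have h2 := closure_minimal h1 (isClosed_le hc continuous_const)
    rwa [closure_Ioo huv.ne] at h2
  exact ⟨u, v, huS.1.1, huv, le_antisymm (hcl u ⟨le_rfl, huv.le⟩) huS.2,
    le_antisymm (hcl v ⟨huv.le, le_rfl⟩) hvR.2, hneg⟩

/-- properties of solutions that converge to one -/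
theorem good_of_profile (hd : Differentiable ℝ h) (hh0 : h 0 = 0)
    (hP : ∀ z, h z * deriv h z = P a h z) (hA : ∀ z, h z ^ 2 = A a h z)
    (hlim : Tendsto h atTop (𝓝 1)) : a ≠ 0 ∧ ∀ Z, Good a h Z := by
  have hc := hd.continuous
  -- the energy
  have hdE : ∀ z, HasDerivAt (E a h) (-(h z ^ 3 / 18)) z := by
    intro z
    have h1 := hasDerivAt_P (a := a) hc z
    have h2 := hasDerivAt_K (a := a) hc z
    have h3 := (((h1.pow 2).div_const 2).add (((hasDerivAt_id z).div_const 9).mul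
      ((hd z).hasDerivAt.pow 3))).sub ((h2.mul ((hd z).hasDerivAt.pow 2)).div_const 2)
    refine h3.congr_deriv ?_
    simp only [id, Pi.pow_apply]
    push_cast
    have h4 := hP z
    have h5 : h z ^ 2 * deriv h z = h z * P a h z := by rw [← h4]; ring
    have e : 2 * P a h z ^ 1 * (K a h z - z * h z / 3) / 2 + (1 / 9 * h z ^ 3 +
        z / 9 * (3 * h z ^ 2 * deriv h z)) - (h z / 3 * h z ^ 2 +
        K a h z * (2 * h z ^ 1 * deriv h z)) / 2 =
        P a h z * (K a h z - z * h z / 3) + 1 / 9 * h z ^ 3 + z / 3 * (h z ^ 2 * deriv h z) -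
        h z ^ 3 / 6 - K a h z * (h z * deriv h z) := by ring
    norm_num at e ⊢
    rw [e, h5, h4]
    ring
  have hEz : ∀ z, h z = 0 → E a h z = 0 := by
    intro z hz
    have h1 := hP z
    rw [hz, zero_mul] at h1
    unfold E
    rw [← h1, hz]
    ring
  obtain ⟨y₀, hy₀⟩ := (hlim.eventually (lt_mem_nhds (by norm_num : (1 / 2 : ℝ) < 1))).exists_forall_of_atTop
  -- nonnegativity
  have hnn : ∀ z, 0 ≤ z → 0 ≤ h z := by
    intro x hx0
    by_contra hcon
    push Not at hcon
    have hx0' : 0 < x := lt_of_le_of_ne hx0 fun h1 => by rw [← h1, hh0] at hcon; exact lt_irrefl _ hcon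
    obtain ⟨u, v, hu0, huv, hu, hv, hneg⟩ := neg_interval hc hh0.ge hx0' hcon
      (lt_of_lt_of_le (lt_add_one x) (le_max_left (x + 1) y₀)) (by
        have := hy₀ (max (x + 1) y₀) (le_max_right _ _)
        linarith)
    have h1 : StrictMonoOn (E a h) (Icc u v) := by
      refine strictMonoOn_of_deriv_pos (convex_Icc _ _) (continuous_E hc).continuousOn ?_
      intro z hz
      rw [interior_Icc] at hz
      rw [(hdE z).deriv]
      have := hneg z hz.1 hz.2
      have : h z ^ 3 < 0 := by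
        have h3 : h z ^ 3 = h z ^ 2 * h z := by ring
        rw [h3]
        exact mul_neg_of_pos_of_neg (by have := this.ne; positivity) this
      linarith
    have h2 := h1 (left_mem_Icc.2 huv.le) (right_mem_Icc.2 huv.le) huv
    rw [hEz u hu, hEz v hv] at h2
    exact lt_irrefl _ h2
  have hanti : AntitoneOn (E a h) (Ici 0) := by
    refine antitoneOn_of_deriv_nonpos (convex_Ici _) (continuous_E hc).continuousOn
      (fun z _ => (hdE z).differentiableAt.differentiableWithinAt) fun z hz => ?_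
    rw [interior_Ici] at hz
    rw [(hdE z).deriv]
    have := hnn z (le_of_lt hz)
    have : 0 ≤ h z ^ 3 := by positivity
    linarith
  have hE0 : E a h 0 = 0 := hEz 0 hh0
  -- zeros propagate to the left
  have hleft : ∀ x, 0 ≤ x → h x = 0 → ∀ t, 0 ≤ t → t ≤ x → h t = 0 := by
    intro x hx hx0
    have h1 : ∀ t, 0 ≤ t → t ≤ x → E a h t = 0 := by
      intro t ht htx
      refine le_antisymm ?_ ?_
      · rw [← hE0]; exact hanti (mem_Ici.2 le_rfl) (mem_Ici.2 ht) ht
      · rw [← hEz x hx0]; exact hanti (mem_Ici.2 ht) (mem_Ici.2 hx) htx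
    have h2 : ∀ t, 0 < t → t < x → h t = 0 := by
      intro t ht htx
      have h3 : HasDerivAt (E a h) 0 t := by
        refine (hasDerivAt_const t (0 : ℝ)).congr_of_eventuallyEq ?_
        filter_upwards [Ioo_mem_nhds ht htx] with s hs
        exact h1 s hs.1.le hs.2.le
      have h4 := (hdE t).unique h3
      have h5 : h t ^ 3 = 0 := by linarith
      exact (pow_eq_zero_iff three_ne_zero).1 h5
    intro t ht htx
    rcases ht.eq_or_lt with h3 | h3
    · rw [← h3]; exact hh0
    rcases htx.eq_or_lt with h4 | h4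
    · rw [h4]; exact hx0
    · exact h2 t h3 h4
  -- positivity
  have hpos : ∀ z, 0 < z → 0 < h z := by
    by_contra hcon
    push Not at hcon
    obtain ⟨x, hx0, hx⟩ := hcon
    have hx' : h x = 0 := le_antisymm hx (hnn x hx0.le)
    set S : Set ℝ := Icc 0 (max x y₀) ∩ h ⁻¹' {0} with hS
    have hSc : IsCompact S := isCompact_Icc.inter_right (isClosed_singleton.preimage hc)
    obtain ⟨s, hsS, hs⟩ := hSc.exists_isGreatest ⟨x, ⟨hx0.le, le_max_left _ _⟩, hx'⟩
    have hs0 : 0 < s := hx0.trans_le (hs ⟨⟨hx0.le, le_max_left _ _⟩, hx'⟩)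
    have hsz : h s = 0 := hsS.2
    have hafter : ∀ t, s < t → h t ≠ 0 := by
      intro t ht h1
      rcases le_total t (max x y₀) with h2 | h2
      · exact absurd (hs ⟨⟨hs0.le.trans ht.le, h2⟩, h1⟩) (not_le.2 ht)
      · have := hy₀ t ((le_max_right _ _).trans h2)
        rw [h1] at this
        norm_num at this
    have hbefore := hleft s hs0.le hsz
    have ha : a = 0 := by
      have h1 := hP (s / 2)
      rw [hbefore (s / 2) (by linarith) (by linarith), zero_mul, P_eq hc] at h1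
      have h2 : (∫ t in (0 : ℝ)..(s / 2), (s / 2 - 2 * t) * h t) = 0 := by
        have h3 : (∫ t in (0 : ℝ)..(s / 2), (s / 2 - 2 * t) * h t) = ∫ t in (0 : ℝ)..(s / 2), (0 : ℝ) := by
          refine integral_congr fun t ht => ?_
          rw [uIcc_of_le (by linarith)] at ht
          rw [hbefore t ht.1 (by linarith [ht.2]), mul_zero]
        rw [h3]; simp
      rw [h2] at h1
      have h3 : a ^ 2 * (s / 2) = 0 := by linarith
      have h4 : a ^ 2 = 0 := (mul_eq_zero.1 h3).resolve_right (by positivity)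
      exact (pow_eq_zero_iff two_ne_zero).1 h4
    have hanti2 : AntitoneOn (A a h) (Icc s (2 * s)) := by
      refine antitoneOn_of_deriv_nonpos (convex_Icc _ _) (continuous_A hc).continuousOn
        (fun z _ => (hasDerivAt_A hc z).differentiableAt.differentiableWithinAt) fun z hz => ?_
      rw [interior_Icc] at hz
      rw [(hasDerivAt_A hc z).deriv, P_eq hc, ha]
      have h1 : (∫ t in (0 : ℝ)..z, (z - 2 * t) * h t) ≤ ∫ t in (0 : ℝ)..z, (0 : ℝ) := by
        refine integral_mono_on (by linarith [hz.1]) ?_ (by simp) fun t ht => ?_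
        · exact ((by fun_prop : Continuous fun t : ℝ => (z - 2 * t)).mul hc).intervalIntegrable _ _
        · rcases le_total t s with h2 | h2
          · rw [hbefore t ht.1 h2, mul_zero]
          · exact mul_nonpos_of_nonpos_of_nonneg (by linarith [hz.2]) (hnn t ht.1)
      simp at h1
      nlinarith
    have h2 := hanti2 (left_mem_Icc.2 (by linarith)) ⟨by linarith, by linarith⟩
      (by linarith : s ≤ 3 / 2 * s)
    rw [← hA, ← hA, hsz] at h2
    have h3 : h (3 / 2 * s) = 0 := by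
      have h4 : h (3 / 2 * s) ^ 2 = 0 := le_antisymm (by simpa using h2) (sq_nonneg _)
      exact (pow_eq_zero_iff two_ne_zero).1 h4
    exact hafter _ (by linarith) h3
  have hg : ∀ Z, Good a h Z := fun Z => ⟨hc, fun z _ _ => hA z, fun z hz _ => hpos z hz⟩
  refine ⟨?_, hg⟩
  -- `a ≠ 0`
  intro ha
  have hK : ∀ z, K a h z = H h z / 3 := fun z => by unfold K; rw [ha]; ring
  have hzh : ∀ z, 0 < z → z * h z ≤ 3 / 2 * H h z := by
    intro z hz
    have h1 := (hg z).zh_le hz le_rfl (by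
      rw [← hE0]; exact hanti (mem_Ici.2 le_rfl) (mem_Ici.2 hz.le) hz.le)
    rw [hK] at h1
    linarith
  have hHpos : ∀ z, 0 < z → 0 < H h z := by
    intro z hz
    have := hzh z hz
    have := mul_pos hz (hpos z hz)
    linarith
  have hanti3 : AntitoneOn (fun z => H h z ^ 2 / z ^ 3) (Ioi 0) := by
    have hd3 : ∀ z, 0 < z → HasDerivAt (fun z => H h z ^ 2 / z ^ 3)
        ((2 * H h z * h z * z ^ 3 - H h z ^ 2 * (3 * z ^ 2)) / (z ^ 3) ^ 2) z := by
      intro z hz
      have h1 := ((hasDerivAt_H hc z).pow 2).div (hasDerivAt_pow 3 z) (by positivity)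
      refine h1.congr_deriv ?_
      simp only [Pi.pow_apply]
      push_cast
      ring
    refine antitoneOn_of_deriv_nonpos (convex_Ioi _)
      (fun z hz => (hd3 z hz).continuousAt.continuousWithinAt)
      (fun z hz => ?_) fun z hz => ?_
    · rw [interior_Ioi] at hz
      exact (hd3 z hz).differentiableAt.differentiableWithinAt
    · rw [interior_Ioi] at hz
      have hz' : 0 < z := hz
      rw [(hd3 z hz).deriv]
      apply div_nonpos_of_nonpos_of_nonneg _ (by positivity)
      have h1 := hzh z hz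
      have h2 : 2 * H h z * z ^ 2 * (z * h z) ≤ 2 * H h z * z ^ 2 * (3 / 2 * H h z) :=
        mul_le_mul_of_nonneg_left h1 (by have := hHpos z hz; positivity)
      nlinarith
  obtain ⟨x₀, hx₀, hmax⟩ := isCompact_Icc.exists_isMaxOn (nonempty_Icc.2 zero_le_one)
    hc.continuousOn
  set m := h x₀ with hm
  have hm1 : 0 < m := (hpos 1 one_pos).trans_le (hmax ⟨zero_le_one, le_rfl⟩)
  have hH1 := hHpos 1 one_pos
  -- upper bound of `H`
  have hup : ∀ z, 0 < z → z ≤ 1 → H h z ^ 2 ≤ 2 / 3 * m * z ^ 5 := by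
    intro z hz hz1
    have hs : ∀ t, 0 ≤ t → t ≤ z → h t ≤ √(2 / 3 * m * z ^ 3) := by
      intro t ht htz
      refine Real.le_sqrt_of_sq_le ?_
      rw [hA t]
      have h1 := (abs_le.1 (A_bound (a := a) hc ht)).2
      rw [ha] at h1 ⊢
      have h2 : (∫ s in (0 : ℝ)..t, |h s|) ≤ m * t := by
        have h3 : (∫ s in (0 : ℝ)..t, |h s|) ≤ ∫ _ in (0 : ℝ)..t, m :=
          integral_mono_on ht (hc.abs.intervalIntegrable _ _) (by simp) fun s hs => by
            rw [abs_of_nonneg (hnn s hs.1)]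
            exact hmax ⟨hs.1, hs.2.trans (htz.trans hz1)⟩
        simpa [mul_comm] using h3
      have h3 : 2 / 3 * t ^ 2 * (∫ s in (0 : ℝ)..t, |h s|) ≤ 2 / 3 * t ^ 2 * (m * t) :=
        mul_le_mul_of_nonneg_left h2 (by positivity)
      have h4 : t ^ 3 ≤ z ^ 3 := pow_le_pow_left₀ ht htz 3
      nlinarith
    have h1 : H h z ≤ √(2 / 3 * m * z ^ 3) * z := by
      unfold H
      have h3 : (∫ s in (0 : ℝ)..z, h s) ≤ ∫ _ in (0 : ℝ)..z, √(2 / 3 * m * z ^ 3) :=
        integral_mono_on hz.le (hc.intervalIntegrable _ _) (by simp) fun s hs' => hs s hs'.1 hs'.2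
      simpa [mul_comm] using h3
    calc H h z ^ 2 ≤ (√(2 / 3 * m * z ^ 3) * z) ^ 2 := pow_le_pow_left₀ (hHpos z hz).le h1 2
      _ = 2 / 3 * m * z ^ 5 := by
          rw [mul_pow, Real.sq_sqrt (by positivity)]; ring
  -- contradiction for small `z`
  set κ := H h 1 ^ 2 with hκ
  have hκ0 : 0 < κ := by positivity
  set z := min 1 (κ / (m + 1)) with hz
  have hz0 : 0 < z := lt_min one_pos (by positivity)
  have hz1 : z ≤ 1 := min_le_left _ _
  have h1 := hanti3 (mem_Ioi.2 hz0) (mem_Ioi.2 one_pos) hz1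
  simp only [one_pow, div_one] at h1
  rw [le_div_iff₀ (by positivity)] at h1
  have h2 := hup z hz0 hz1
  have h3 : κ * z ^ 3 ≤ 2 / 3 * m * z ^ 2 * z ^ 3 := by
    calc κ * z ^ 3 ≤ H h z ^ 2 := h1
      _ ≤ _ := h2
      _ = _ := by ring
  have h4 : κ ≤ 2 / 3 * m * z ^ 2 := le_of_mul_le_mul_right h3 (by positivity)
  have h5 : z ^ 2 ≤ z := by nlinarith
  have h6 : z * (m + 1) ≤ κ := by
    have := min_le_right 1 (κ / (m + 1))
    rwa [le_div_iff₀ (by positivity)] at this
  nlinarith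

end Pool.Agent.Q64.SF
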